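import Mathlib

/-! # MP_973fa8: definable predicates and functions in an expansion of the real field (helper46) -/

set_option autoImplicit false

namespace Pool.Agent.Work.MP_973fa8.helper46

open Set Filter Topology

/-- an o-minimal expansion of the real field (as in the frozen statement) -/
structure Omin (L : FirstOrder.Language.{0, 0}) [L.Structure ℝ] : Prop where
  le : Set.Definable (Set.univ : Set ℝ) L {v : Fin 2 → ℝ | v 0 ≤ v 1}
  add : Set.Definable (Set.univ : Set ℝ) L {v : Fin 3 → ℝ | v 0 + v 1 = v 2}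
  mul : Set.Definable (Set.univ : Set ℝ) L {v : Fin 3 → ℝ | v 0 * v 1 = v 2}
  fin : ∀ s : Set (Fin 1 → ℝ), Set.Definable (Set.univ : Set ℝ) L s →
    (frontier {x : ℝ | (fun _ : Fin 1 => x) ∈ s}).Finite

section
variable {L : FirstOrder.Language.{0, 0}} [L.Structure ℝ] {α β : Type}

/-- definable predicates -/
def DP (L : FirstOrder.Language.{0, 0}) [L.Structure ℝ] {α : Type} (P : (α → ℝ) → Prop) : Prop :=
  Set.Definable (Set.univ : Set ℝ) L {v : α → ℝ | P v}

/-- definable functions -/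
def DF (L : FirstOrder.Language.{0, 0}) [L.Structure ℝ] {α : Type} (F : (α → ℝ) → ℝ) : Prop :=
  Set.DefinableFun L (Set.univ : Set ℝ) F

theorem DP.and {P Q : (α → ℝ) → Prop} (hP : DP L P) (hQ : DP L Q) : DP L (fun v => P v ∧ Q v) :=
  Set.Definable.inter hP hQ

theorem DP.or {P Q : (α → ℝ) → Prop} (hP : DP L P) (hQ : DP L Q) : DP L (fun v => P v ∨ Q v) :=
  Set.Definable.union hP hQ

theorem DP.not {P : (α → ℝ) → Prop} (hP : DP L P) : DP L (fun v => ¬ P v) :=
  Set.Definable.compl hP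

theorem DP.imp {P Q : (α → ℝ) → Prop} (hP : DP L P) (hQ : DP L Q) : DP L (fun v => P v → Q v) := by
  have h := hP.not.or hQ
  have he : (fun v => P v → Q v) = fun v => ¬ P v ∨ Q v := by
    funext v
    exact propext imp_iff_not_or
  rw [he]
  exact h

theorem DP.congr {P Q : (α → ℝ) → Prop} (hP : DP L P) (h : ∀ v, P v ↔ Q v) : DP L Q := by
  have he : Q = P := by
    funext v
    exact propext (h v).symm
  rw [he]
  exact hP

theorem DP.ex {P : (α → ℝ) → ℝ → Prop}
    (h : DP L (fun w : α ⊕ Unit → ℝ => P (fun a => w (Sum.inl a)) (w (Sum.inr ())))) :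
    DP L (fun v => ∃ y, P v y) := by
  have h1 := Set.Definable.exists_of_finite h
  have he : {v : α → ℝ | ∃ u : Unit → ℝ, Sum.elim v u ∈
      {w : α ⊕ Unit → ℝ | P (fun a => w (Sum.inl a)) (w (Sum.inr ()))}} =
      {v : α → ℝ | ∃ y, P v y} := by
    ext v
    constructor
    · rintro ⟨u, hu⟩
      exact ⟨u (), hu⟩
    · rintro ⟨y, hy⟩
      exact ⟨fun _ => y, hy⟩
  rw [he] at h1
  exact h1

theorem DP.all {P : (α → ℝ) → ℝ → Prop}
    (h : DP L (fun w : α ⊕ Unit → ℝ => P (fun a => w (Sum.inl a)) (w (Sum.inr ())))) :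
    DP L (fun v => ∀ y, P v y) := by
  have h1 := (DP.ex (P := fun v y => ¬ P v y) h.not).not
  exact h1.congr (fun v => by push Not; rfl)

theorem DF.var (i : α) : DF L (fun v : α → ℝ => v i) := Set.DefinableFun.proj L

theorem DF.const (c : ℝ) : DF L (fun _ : α → ℝ => c) :=
  FirstOrder.Language.definableFun_const L α (Set.mem_univ c)

/-- substitution in a predicate -/
theorem DP.sub {n : ℕ} {P : (Fin n → ℝ) → Prop} (hP : DP L P) {F : (α → ℝ) → Fin n → ℝ}
    (hF : ∀ i, DF L (fun v => F v i)) : DP L (fun v => P (F v)) :=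
  Set.Definable.preimage_map hF hP

theorem DF.sub {n : ℕ} {f : (Fin n → ℝ) → ℝ} (hf : DF L f) {F : (α → ℝ) → Fin n → ℝ}
    (hF : ∀ i, DF L (fun v => F v i)) : DF L (fun v => f (F v)) :=
  Set.DefinableFun.comp hF hf

theorem DP.sub1 {P : ℝ → Prop} (hP : DP L (fun v : Fin 1 → ℝ => P (v 0))) {F : (α → ℝ) → ℝ}
    (hF : DF L F) : DP L (fun v => P (F v)) :=
  DP.sub hP (F := fun v => ![F v]) (by
    intro i
    fin_cases i
    exact hF)

theorem DP.sub2 {P : ℝ → ℝ → Prop} (hP : DP L (fun v : Fin 2 → ℝ => P (v 0) (v 1)))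
    {F G : (α → ℝ) → ℝ} (hF : DF L F) (hG : DF L G) : DP L (fun v => P (F v) (G v)) :=
  DP.sub hP (F := fun v => ![F v, G v]) (by
    intro i
    fin_cases i
    · exact hF
    · exact hG)

theorem DF.sub1 {f : ℝ → ℝ} (hf : DF L (fun v : Fin 1 → ℝ => f (v 0))) {F : (α → ℝ) → ℝ}
    (hF : DF L F) : DF L (fun v => f (F v)) :=
  DF.sub hf (F := fun v => ![F v]) (by
    intro i
    fin_cases i
    exact hF)

theorem DF.sub2 {f : ℝ → ℝ → ℝ} (hf : DF L (fun v : Fin 2 → ℝ => f (v 0) (v 1)))
    {F G : (α → ℝ) → ℝ} (hF : DF L F) (hG : DF L G) : DF L (fun v => f (F v) (G v)) :=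
  DF.sub hf (F := fun v => ![F v, G v]) (by
    intro i
    fin_cases i
    · exact hF
    · exact hG)

/-- a function is definable if its graph is -/
theorem DF.of_graph {f : (α → ℝ) → ℝ}
    (h : DP L (fun w : Option α → ℝ => f (fun a => w (some a)) = w none)) : DF L f := h

theorem DF.graph {f : (α → ℝ) → ℝ} (h : DF L f) :
    DP L (fun w : Option α → ℝ => f (fun a => w (some a)) = w none) := h

theorem DF.eq {F G : (α → ℝ) → ℝ} (hF : DF L F) (hG : DF L G) : DP L (fun v => F v = G v) :=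
  Set.DefinableFun.ofPred_eq hF hG

/-- graph of a unary function as a binary predicate -/
theorem DF.of_graph1 {f : ℝ → ℝ} (h : DP L (fun v : Fin 2 → ℝ => f (v 0) = v 1)) :
    DF L (fun v : Fin 1 → ℝ => f (v 0)) := by
  apply DF.of_graph
  exact DP.sub2 (P := fun a b => f a = b) h (DF.var (some 0)) (DF.var none)

theorem DF.graph1 {f : ℝ → ℝ} (h : DF L (fun v : Fin 1 → ℝ => f (v 0))) :
    DP L (fun v : Fin 2 → ℝ => f (v 0) = v 1) :=
  (DF.sub1 h (DF.var 0)).eq (DF.var 1)

theorem DF.of_graph2 {f : ℝ → ℝ → ℝ} (h : DP L (fun v : Fin 3 → ℝ => f (v 0) (v 1) = v 2)) :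
    DF L (fun v : Fin 2 → ℝ => f (v 0) (v 1)) := by
  apply DF.of_graph
  exact DP.sub h (F := fun w => ![w (some 0), w (some 1), w none]) (by
    intro i
    fin_cases i
    · exact DF.var _
    · exact DF.var _
    · exact DF.var _)

theorem DF.graph2 {f : ℝ → ℝ → ℝ} (h : DF L (fun v : Fin 2 → ℝ => f (v 0) (v 1))) :
    DP L (fun v : Fin 3 → ℝ => f (v 0) (v 1) = v 2) :=
  (DF.sub2 h (DF.var 0) (DF.var 1)).eq (DF.var 2)

end

section field
variable {L : FirstOrder.Language.{0, 0}} [L.Structure ℝ] {α : Type}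

theorem Omin.dle (h : Omin L) {F G : (α → ℝ) → ℝ} (hF : DF L F) (hG : DF L G) :
    DP L (fun v => F v ≤ G v) := DP.sub2 (P := fun a b => a ≤ b) h.le hF hG

theorem Omin.dlt (h : Omin L) {F G : (α → ℝ) → ℝ} (hF : DF L F) (hG : DF L G) :
    DP L (fun v => F v < G v) := (h.dle hG hF).not.congr (fun _ => not_le)

theorem Omin.dadd (h : Omin L) {F G : (α → ℝ) → ℝ} (hF : DF L F) (hG : DF L G) :
    DF L (fun v => F v + G v) := DF.sub2 (DF.of_graph2 h.add) hF hG

theorem Omin.dmul (h : Omin L) {F G : (α → ℝ) → ℝ} (hF : DF L F) (hG : DF L G) :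
    DF L (fun v => F v * G v) := DF.sub2 (DF.of_graph2 h.mul) hF hG

theorem Omin.dneg (h : Omin L) {F : (α → ℝ) → ℝ} (hF : DF L F) : DF L (fun v => - F v) := by
  have h1 := h.dmul (DF.const (-1)) hF
  have he : (fun v => - F v) = fun v => (-1) * F v := by
    funext v
    ring
  rw [he]
  exact h1

theorem Omin.dsub (h : Omin L) {F G : (α → ℝ) → ℝ} (hF : DF L F) (hG : DF L G) :
    DF L (fun v => F v - G v) := by
  have h1 := h.dadd hF (h.dneg hG)
  have he : (fun v => F v - G v) = fun v => F v + - G v := by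
    funext v
    ring
  rw [he]
  exact h1

theorem Omin.dpow (h : Omin L) {F : (α → ℝ) → ℝ} (hF : DF L F) (n : ℕ) :
    DF L (fun v => F v ^ n) := by
  induction n with
  | zero =>
    have he : (fun v => F v ^ 0) = fun _ : α → ℝ => (1 : ℝ) := by
      funext v
      simp
    rw [he]
    exact DF.const 1
  | succ n ih =>
    have he : (fun v => F v ^ (n + 1)) = fun v => F v ^ n * F v := by
      funext v
      ring
    rw [he]
    exact h.dmul ih hF

theorem Omin.dabs (h : Omin L) {F : (α → ℝ) → ℝ} (hF : DF L F) : DF L (fun v => |F v|) := by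
  classical
  have h1 : DF L (fun v => if F v < 0 then - F v else F v) :=
    Set.DefinableFun.ite (h.dlt hF (DF.const 0)) (h.dneg hF) hF
  have he : (fun v => |F v|) = fun v => if F v < 0 then - F v else F v := by
    funext v
    split_ifs with hv
    · exact abs_of_neg hv
    · exact abs_of_nonneg (not_lt.1 hv)
  rw [he]
  exact h1

theorem Omin.iter {f : ℝ → ℝ} (hf : DF L (fun v : Fin 1 → ℝ => f (v 0))) (n : ℕ)
    {F : (α → ℝ) → ℝ} (hF : DF L F) : DF L (fun v => f^[n] (F v)) := by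
  induction n with
  | zero => exact hF
  | succ n ih =>
    have he : (fun v => f^[n + 1] (F v)) = fun v => f (f^[n] (F v)) := by
      funext v
      rw [Function.iterate_succ_apply']
    rw [he]
    exact DF.sub1 hf ih

/-- o-minimality at infinity -/
theorem Omin.dich (h : Omin L) {P : ℝ → Prop} (hP : DP L (fun v : Fin 1 → ℝ => P (v 0))) :
    (∀ᶠ x in atTop, P x) ∨ ∀ᶠ x in atTop, ¬ P x := by
  have h1 := h.fin _ hP
  have h2 : {x : ℝ | (fun _ : Fin 1 => x) ∈ {v : Fin 1 → ℝ | P (v 0)}} = {x | P x} := rfl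
  rw [h2] at h1
  obtain ⟨a, ha⟩ := h1.bddAbove
  by_cases hex : ∃ x, a < x ∧ P x
  · obtain ⟨x0, hx0, hPx⟩ := hex
    left
    rw [eventually_atTop]
    refine ⟨x0, fun x hx => ?_⟩
    by_contra hnx
    have hcov : Ioi a ⊆ interior {x : ℝ | P x} ∪ interior {x : ℝ | P x}ᶜ := by
      intro y hy
      have hyf : y ∉ frontier {x : ℝ | P x} := fun hyf => absurd (ha hyf) (not_le.2 hy)
      by_cases hPy : P y
      · left
        by_contra hyi
        exact hyf ⟨subset_closure hPy, hyi⟩
      · right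
        by_contra hyi
        rw [← frontier_compl] at hyf
        exact hyf ⟨subset_closure hPy, hyi⟩
    obtain ⟨y, -, hy1, hy2⟩ := (isPreconnected_Ioi (a := a)) _ _ isOpen_interior isOpen_interior
      hcov ⟨x0, hx0, by
        rcases hcov hx0 with h3 | h3
        · exact h3
        · exact absurd hPx (interior_subset h3)⟩
      ⟨x, lt_of_lt_of_le hx0 hx, by
        rcases hcov (lt_of_lt_of_le hx0 hx) with h3 | h3
        · exact absurd (interior_subset h3) hnx
        · exact h3⟩
    exact (interior_subset hy2) (interior_subset hy1)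
  · right
    rw [eventually_atTop]
    refine ⟨a + 1, fun x hx hPx => hex ⟨x, by linarith, hPx⟩⟩

/-- if `P` holds frequently then it holds eventually -/
theorem Omin.ev (h : Omin L) {P : ℝ → Prop} (hP : DP L (fun v : Fin 1 → ℝ => P (v 0)))
    (hn : ¬ ∀ᶠ x in atTop, ¬ P x) : ∀ᶠ x in atTop, P x := by
  rcases h.dich hP with h1 | h1
  · exact h1
  · exact absurd h1 hn

end field

end Pool.Agent.Work.MP_973fa8.helper46
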