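import Pool.Agent.Work.MP_973fa8_helper46.Root

/-! # MP_973fa8: final assembly (helper46) -/

set_option autoImplicit false

namespace Pool.Agent.Work.MP_973fa8.helper46

open Set Filter Topology

/-- integer level (Rosenlicht, Marker-Miller) -/
def Lev (h : ℝ → ℝ) : Prop :=
  ∃ M N : ℕ, Tendsto (fun x => Real.log^[M] (h x) / Real.log^[N] x) atTop (𝓝 1)

theorem log_it_tt (N : ℕ) : Tendsto (Real.log^[N]) atTop atTop := by
  induction N with
  | zero => exact tendsto_id
  | succ N ih =>
    have h1 : Real.log^[N + 1] = Real.log^[N] ∘ Real.log := Function.iterate_succ _ _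
    rw [h1]
    exact ih.comp Real.tendsto_log_atTop

/-- for `x` large, `log^[m]` is inverted by `exp^[m]` -/
theorem ev_inv (m : ℕ) : ∀ᶠ x : ℝ in atTop, Real.exp^[m] (Real.log^[m] x) = x := by
  rw [eventually_atTop]
  exact ⟨Real.exp^[m] 1, fun x hx => (exp_log_it m hx).1⟩

/-- a function above level zero with `χ (χ x) ≤ exp x` has no level -/
theorem no_lev {χ : ℝ → ℝ} (hA : Above χ) (h2 : ∀ᶠ x in atTop, χ^[2] x ≤ Real.exp x) :
    ¬ Lev χ := by
  rintro ⟨M, N, hl⟩
  have hx : ∀ᶠ x in atTop, x < χ x := by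
    filter_upwards [hA 0 1] with x hx
    simpa using hx
  have htt : Tendsto χ atTop atTop :=
    tendsto_atTop_mono' _ (hx.mono (fun x h => h.le)) tendsto_id
  have hlN := log_it_tt N
  have hpos : ∀ᶠ x in atTop, 0 < Real.log^[N] x := hlN.eventually_gt_atTop 0
  rcases Nat.lt_or_ge N M with hNM | hNM
  · -- `M ≥ N + 1`
    obtain ⟨k, hk⟩ : ∃ k, M = N + 1 + k := ⟨M - (N + 1), by omega⟩
    have h3 : ∀ᶠ x in atTop, Real.exp^[M] (1 / 2 * Real.log^[N] x) ≤ χ x := by
      have h4 : ∀ᶠ x in atTop, 1 / 2 < Real.log^[M] (χ x) / Real.log^[N] x :=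
        hl.eventually_const_lt (by norm_num)
      filter_upwards [h4, hpos, htt.eventually (ev_inv M)] with x h5 h6 h7
      rw [lt_div_iff₀ h6] at h5
      rw [← h7]
      exact (exp_it_mono M).monotone h5.le
    have h8 : ∀ᶠ x in atTop, Real.exp^[N + 1] (1 / 2 * Real.log^[N] x) ≤ χ x := by
      have h9 : Tendsto (fun x => 1 / 2 * Real.log^[N] x) atTop atTop :=
        hlN.const_mul_atTop (by norm_num)
      have h10 : ∀ᶠ r : ℝ in atTop, r ≤ Real.exp^[k] r := by
        filter_upwards [eventually_ge_atTop 0] with r _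
        clear hk h3 h9
        induction k with
        | zero => exact le_refl _
        | succ k ih =>
          rw [Function.iterate_succ_apply']
          have := Real.add_one_le_exp (Real.exp^[k] r)
          linarith
      filter_upwards [h3, h9.eventually h10] with x h11 h12
      refine le_trans ?_ h11
      rw [hk, Function.iterate_add_apply Real.exp (N + 1) k]
      exact (exp_it_mono (N + 1)).monotone h12
    -- growth
    have h13 : ∀ᶠ r : ℝ in atTop, r < 1 / 2 * Real.exp (1 / 2 * r) := by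
      have h14 := (Real.isLittleO_pow_exp_atTop (n := 1)).bound (c := 1 / 8) (by norm_num)
      have h15 : Tendsto (fun r : ℝ => 1 / 2 * r) atTop atTop :=
        tendsto_id.const_mul_atTop (by norm_num)
      filter_upwards [h15.eventually h14, eventually_gt_atTop 0] with r hr hr0
      rw [pow_one, Real.norm_eq_abs, Real.norm_eq_abs, abs_of_pos (by linarith),
        abs_of_pos (Real.exp_pos _)] at hr
      linarith
    have h16 : ∀ᶠ x in atTop, Real.exp x < χ (χ x) := by
      filter_upwards [h8, htt.eventually h8, hlN.eventually h13, ev_inv N, hpos,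
        htt.eventually (ev_inv N)] with x h17 h18 h19 h20 h21 h22
      refine lt_of_lt_of_le ?_ h18
      have h23 : Real.exp (1 / 2 * Real.log^[N] x) ≤ Real.log^[N] (χ x) := by
        have h24 := h17
        rw [Function.iterate_succ_apply, ← h22] at h24
        exact (exp_it_mono N).le_iff_le.1 h24
      have h26 : Real.log^[N] x < 1 / 2 * Real.log^[N] (χ x) := by linarith
      have h27 := exp_it_mono (N + 1) h26
      rw [Function.iterate_succ_apply' Real.exp N (Real.log^[N] x), h20] at h27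
      exact h27
    obtain ⟨x, hx1, hx2⟩ := (h16.and h2).exists
    have h28 : χ^[2] x = χ (χ x) := rfl
    rw [h28] at hx2
    linarith
  · -- `M ≤ N`
    obtain ⟨k, hk⟩ : ∃ k, N = k + M := ⟨N - M, by omega⟩
    have h3 : ∀ᶠ x in atTop, Real.log^[M] (χ x) ≤ 2 * Real.log^[N] x := by
      have h4 : ∀ᶠ x in atTop, Real.log^[M] (χ x) / Real.log^[N] x < 2 :=
        hl.eventually_lt_const (by norm_num)
      filter_upwards [h4, hpos] with x h5 h6
      rw [div_lt_iff₀ h6] at h5
      exact h5.le
    have h5 : ∀ᶠ r : ℝ in atTop, Real.log^[k] r ≤ r := by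
      rw [eventually_atTop]
      refine ⟨Real.exp^[k] 1, fun r hr => ?_⟩
      obtain ⟨h6, h7⟩ := exp_log_it k hr
      have h8 : Real.log^[k] r ≤ Real.exp^[k] (Real.log^[k] r) := by
        generalize Real.log^[k] r = s
        clear h6 h7 hr hk
        induction k with
        | zero => exact le_refl _
        | succ k ih =>
          rw [Function.iterate_succ_apply']
          have := Real.add_one_le_exp (Real.exp^[k] s)
          linarith
      rw [h6] at h8
      exact h8
    have h9 : ∀ᶠ x in atTop, χ x ≤ Real.exp^[M] (2 * Real.log^[M] x) := by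
      filter_upwards [h3, (log_it_tt M).eventually h5, htt.eventually (ev_inv M)] with x h10 h11 h12
      rw [← h12]
      apply (exp_it_mono M).monotone
      rw [hk, Function.iterate_add_apply] at h10
      linarith
    obtain ⟨x, hx1, hx2⟩ := (h9.and (hA M 2)).exists
    linarith

section
variable {L : FirstOrder.Language.{0, 0}} [L.Structure ℝ]

/-- the path is a strictly increasing bijection from `[0, 1]` to `[x, h x]` -/
theorem Ph_strict {g : ℝ → ℝ} (hg : Slow2 L g) {h : ℝ → ℝ} {x : ℝ} (hx0 : 0 ≤ x) (hx1 : x < h x)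
    {s t : ℝ} (hs : 0 ≤ s) (hst : s < t) (ht : t ≤ 1) : Ph hg h s x < Ph hg h t x := by
  obtain ⟨h1, h2⟩ := Ph_g hg hs (by linarith) hx0 hx1.le
  obtain ⟨h3, h4⟩ := Ph_g hg (by linarith) ht hx0 hx1.le
  apply hg.lt_of h3
  have h5 := hg.st x (h x) hx0 hx1
  rw [h2, h4]
  nlinarith

theorem Ph_surj {g : ℝ → ℝ} (hg : Slow2 L g) {h : ℝ → ℝ} {x : ℝ} (hx0 : 0 ≤ x) (hx1 : x < h x)
    {y : ℝ} (hy0 : x ≤ y) (hy1 : y ≤ h x) : ∃ t, 0 ≤ t ∧ t ≤ 1 ∧ Ph hg h t x = y := by
  have h1 := hg.st x (h x) hx0 hx1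
  have h2 := hg.mo x y hx0 hy0
  have h3 := hg.mo y (h x) (hx0.trans hy0) hy1
  have h4 : 0 < g (h x) - g x := by linarith
  have h5 : 0 ≤ (g y - g x) / (g (h x) - g x) := div_nonneg (by linarith) h4.le
  have h6 : (g y - g x) / (g (h x) - g x) ≤ 1 := by
    rw [div_le_one h4]
    linarith
  refine ⟨(g y - g x) / (g (h x) - g x), h5, h6, ?_⟩
  apply PR_un hg h (Ph_spec hg h _ x)
  refine Or.inl ⟨⟨h5, h6, hx0, hx1.le⟩, hx0.trans hy0, ?_⟩
  have h7 : (g y - g x) / (g (h x) - g x) * (g (h x) - g x) = g y - g x :=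
    div_mul_cancel₀ _ h4.ne'
  linarith

end

end Pool.Agent.Work.MP_973fa8.helper46
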