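import Pool.Agent.Work.MP_973fa8_helper46.RV

/-! # MP_973fa8: a slow definable function gives `exp` (Miller's dichotomy), helper46 -/

set_option autoImplicit false

namespace Pool.Agent.Work.MP_973fa8.helper46

open Set Filter Topology

section
variable {L : FirstOrder.Language.{0, 0}} [L.Structure ℝ] {α : Type}

/-- a slow function -/
structure Slow (L : FirstOrder.Language.{0, 0}) [L.Structure ℝ] (g : ℝ → ℝ) : Prop where
  df : DF L (fun v : Fin 1 → ℝ => g (v 0))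
  tt : Tendsto g atTop atTop
  st : ∀ x y, 0 ≤ x → x < y → g x < g y
  sl : ∀ k : ℕ, 1 ≤ k → ∀ᶠ x in atTop, g (x ^ k) ≤ x

theorem Slow.mo {g : ℝ → ℝ} (hg : Slow L g) (x y : ℝ) (hx : 0 ≤ x) (hxy : x ≤ y) :
    g x ≤ g y := by
  rcases hxy.eq_or_lt with h | h
  · rw [h]
  · exact (hg.st x y hx h).le

theorem Slow.pos {g : ℝ → ℝ} (hg : Slow L g) {C : ℝ} (hC : 1 < C) (r : ℝ) (hr : 0 < r) :
    0 < inc g C r := by
  unfold inc
  have := hg.st r (C * r) hr.le (by nlinarith)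
  linarith

theorem eta_ex (p q : ℕ) (ρ : ℝ) (hρ : ρ * q < p) :
    ∃ η : ℝ, 0 < η ∧ η < 1 ∧ ρ * q * (1 + η) ^ q ≤ p * (1 - η) ^ p := by
  have h1 : ContinuousAt (fun η : ℝ => p * (1 - η) ^ p - ρ * q * (1 + η) ^ q) 0 := by
    fun_prop
  have h2 : (0 : ℝ) < p * (1 - (0 : ℝ)) ^ p - ρ * q * (1 + 0) ^ q := by
    simp only [sub_zero, add_zero, one_pow, mul_one]
    linarith
  have h3 := h1.eventually (lt_mem_nhds h2)
  obtain ⟨δ, hδ, hδ2⟩ := Metric.eventually_nhds_iff.1 h3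
  refine ⟨min (δ / 2) (1 / 2), by positivity, ?_, ?_⟩
  · exact lt_of_le_of_lt (min_le_right _ _) (by norm_num)
  · have h4 : 0 < min (δ / 2) (1 / 2 : ℝ) := by positivity
    have h5 := hδ2 (y := min (δ / 2) (1 / 2)) (by
      rw [Real.dist_eq, sub_zero, abs_of_pos h4]
      exact lt_of_le_of_lt (min_le_left _ _) (by linarith))
    linarith

/-- comparison of two increments -/
theorem Omin.cmp (h : Omin L) {g : ℝ → ℝ} (hg : Slow L g) {lam mu : ℝ} (hl : 1 < lam)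
    (hm : 1 < mu) (p q : ℕ) (hpq : mu ^ p ≤ lam ^ q) {ρ : ℝ} (hρ : ρ * q < p) :
    ∀ᶠ x in atTop, ρ * q * inc g mu x ≤ q * inc g lam x := by
  obtain ⟨η, hη0, hη1, hη⟩ := eta_ex p q ρ hρ
  obtain ⟨a0, ha0⟩ := eventually_atTop.1 ((h.r1 hg.df hg.tt hm (c := 1 - η) (by linarith)
    (by linarith)).and (h.r2' hg.df hg.sl hg.mo hl (c := 1 + η) (by linarith)
      (fun r hr => hg.pos hl r hr)))
  rw [eventually_atTop]
  refine ⟨max a0 1, fun x hx => ?_⟩
  have hx1 : a0 ≤ x := (le_max_left _ _).trans hx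
  have hx0 : 0 < x := lt_of_lt_of_le zero_lt_one ((le_max_right a0 1).trans hx)
  have hge := inc_ge_pow (G := g) hm hx0 (by linarith : (0 : ℝ) ≤ 1 - η)
    (fun r hr => (ha0 r (hx1.trans hr)).1)
  have hle := inc_le_pow (G := g) hl hx0 (by linarith : (0 : ℝ) ≤ 1 + η)
    (fun r hr => (ha0 r (hx1.trans hr)).2)
  have hpm := hg.pos hm x hx0
  have hpl := hg.pos hl x hx0
  have e1 : p * ((1 - η) ^ p * inc g mu x) ≤ g (mu ^ p * x) - g x := by
    rw [sum_inc, ← nsmul_eq_mul, ← Finset.card_range p, ← Finset.sum_const]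
    rw [Finset.card_range]
    apply Finset.sum_le_sum
    intro i hi
    refine le_trans ?_ (hge i)
    apply mul_le_mul_of_nonneg_right _ hpm.le
    exact pow_le_pow_of_le_one (by linarith) (by linarith) (Finset.mem_range.1 hi).le
  have e2 : g (lam ^ q * x) - g x ≤ q * ((1 + η) ^ q * inc g lam x) := by
    rw [sum_inc, ← nsmul_eq_mul, ← Finset.card_range q, ← Finset.sum_const]
    rw [Finset.card_range]
    apply Finset.sum_le_sum
    intro i hi
    refine le_trans (hle i) ?_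
    apply mul_le_mul_of_nonneg_right _ hpl.le
    exact pow_le_pow_right₀ (by linarith) (Finset.mem_range.1 hi).le
  have e3 : g (mu ^ p * x) ≤ g (lam ^ q * x) :=
    hg.mo _ _ (by positivity) (mul_le_mul_of_nonneg_right hpq hx0.le)
  have e4 : ρ * q * (1 + η) ^ q * inc g mu x ≤ p * (1 - η) ^ p * inc g mu x :=
    mul_le_mul_of_nonneg_right hη hpm.le
  have e5 : (1 + η) ^ q * (ρ * q * inc g mu x) ≤ (1 + η) ^ q * (q * inc g lam x) := by
    calc (1 + η) ^ q * (ρ * q * inc g mu x) = ρ * q * (1 + η) ^ q * inc g mu x := by ring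
      _ ≤ p * (1 - η) ^ p * inc g mu x := e4
      _ = p * ((1 - η) ^ p * inc g mu x) := by ring
      _ ≤ q * ((1 + η) ^ q * inc g lam x) := by linarith
      _ = (1 + η) ^ q * (q * inc g lam x) := by ring
  exact le_of_mul_le_mul_left e5 (by positivity)

/-- `ρ ≤ log₂ lam` up to the boundary case -/
def Cut (g : ℝ → ℝ) (lam ρ : ℝ) : Prop := ∃ N, ∀ x, N ≤ x → ρ * inc g 2 x ≤ inc g lam x

theorem rat_frac {x : ℚ} (hx : 0 < x) : ∃ p q : ℕ, 0 < p ∧ 0 < q ∧ (x : ℝ) = p / q := by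
  refine ⟨x.num.toNat, x.den, ?_, x.pos, ?_⟩
  · have := Rat.num_pos.2 hx
    omega
  · have h1 : 0 < x.num := Rat.num_pos.2 hx
    have h2 : ((x.num.toNat : ℕ) : ℤ) = x.num := Int.toNat_of_nonneg h1.le
    have h3 : ((x.num.toNat : ℕ) : ℝ) = (x.num : ℝ) := by exact_mod_cast congrArg (Int.cast (R := ℝ)) h2
    rw [h3]
    exact_mod_cast (Rat.num_div_den x).symm

theorem Omin.cut_lt (h : Omin L) {g : ℝ → ℝ} (hg : Slow L g) {lam ρ : ℝ} (hl : 1 < lam)
    (hρ : ρ < Real.log lam / Real.log 2) : Cut g lam ρ := by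
  have hl2 : 0 < Real.log 2 := Real.log_pos (by norm_num)
  have hll : 0 < Real.log lam := Real.log_pos hl
  obtain ⟨x, hx1, hx2⟩ := exists_rat_btwn (max_lt hρ (div_pos hll hl2))
  have hx0 : (0 : ℝ) < x := lt_of_le_of_lt (le_max_right _ _) hx1
  have hxρ : ρ < x := lt_of_le_of_lt (le_max_left _ _) hx1
  obtain ⟨p, q, hp, hq, hpq⟩ := rat_frac (by exact_mod_cast hx0)
  have hq0 : (0 : ℝ) < q := by exact_mod_cast hq
  rw [hpq] at hxρ hx2
  have h1 : (2 : ℝ) ^ p ≤ lam ^ q := by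
    rw [div_lt_div_iff₀ hq0 hl2] at hx2
    have h2 : Real.log ((2 : ℝ) ^ p) ≤ Real.log (lam ^ q) := by
      rw [Real.log_pow, Real.log_pow]
      linarith
    exact (Real.log_le_log_iff (by positivity) (by positivity)).1 h2
  rw [lt_div_iff₀ hq0] at hxρ
  obtain ⟨N, hN⟩ := eventually_atTop.1 (h.cmp hg hl (by norm_num : (1 : ℝ) < 2) p q h1 hxρ)
  refine ⟨N, fun y hy => ?_⟩
  have h2 := hN y hy
  have h3 : (q : ℝ) * (ρ * inc g 2 y) ≤ q * inc g lam y := by
    calc (q : ℝ) * (ρ * inc g 2 y) = ρ * q * inc g 2 y := by ring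
      _ ≤ _ := h2
  exact le_of_mul_le_mul_left h3 hq0

theorem Omin.cut_gt (h : Omin L) {g : ℝ → ℝ} (hg : Slow L g) {lam ρ : ℝ} (hl : 1 < lam)
    (hρ : Real.log lam / Real.log 2 < ρ) : ¬ Cut g lam ρ := by
  have hl2 : 0 < Real.log 2 := Real.log_pos (by norm_num)
  have hll : 0 < Real.log lam := Real.log_pos hl
  obtain ⟨x, hx1, hx2⟩ := exists_rat_btwn hρ
  have hx0 : (0 : ℝ) < x := lt_trans (div_pos hll hl2) hx1
  have hρ0 : 0 < ρ := lt_trans hx0 hx2
  obtain ⟨p, q, hp, hq, hpq⟩ := rat_frac (by exact_mod_cast hx0)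
  have hq0 : (0 : ℝ) < q := by exact_mod_cast hq
  have hp0 : (0 : ℝ) < p := by exact_mod_cast hp
  rw [hpq] at hx1 hx2
  have h1 : lam ^ q ≤ (2 : ℝ) ^ p := by
    rw [div_lt_div_iff₀ hl2 hq0] at hx1
    have h2 : Real.log (lam ^ q) ≤ Real.log ((2 : ℝ) ^ p) := by
      rw [Real.log_pow, Real.log_pow]
      linarith
    exact (Real.log_le_log_iff (by positivity) (by positivity)).1 h2
  rw [div_lt_iff₀ hq0] at hx2
  -- `p < ρ q`; choose `ρ'` with `ρ' p < q`, `1 < ρ ρ'`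
  have h2 : 1 / ρ < q / p := by
    rw [div_lt_div_iff₀ hρ0 hp0]
    linarith
  obtain ⟨ρ', hρ1, hρ2⟩ := exists_between h2
  rw [div_lt_iff₀ hρ0] at hρ1
  rw [lt_div_iff₀ hp0] at hρ2
  have h3 := h.cmp hg (by norm_num : (1 : ℝ) < 2) hl q p h1 hρ2
  rintro ⟨N, hN⟩
  obtain ⟨y, hy1, hy2, hy3⟩ := (h3.and ((eventually_ge_atTop N).and
    (eventually_gt_atTop 0))).exists
  have h4 := hN y hy2
  have h5 := hg.pos (by norm_num : (1 : ℝ) < 2) y hy3
  have h6 : (p : ℝ) * (ρ' * inc g lam y) ≤ p * inc g 2 y := by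
    calc (p : ℝ) * (ρ' * inc g lam y) = ρ' * p * inc g lam y := by ring
      _ ≤ _ := hy1
  have h7 := le_of_mul_le_mul_left h6 hp0
  have hρ'0 : 0 < ρ' := by
    by_contra hneg
    push Not at hneg
    nlinarith
  have h8 : ρ' * (ρ * inc g 2 y) ≤ ρ' * inc g lam y := mul_le_mul_of_nonneg_left h4 hρ'0.le
  nlinarith

/-- the graph of `log₂` on `(1, ∞)` -/
theorem Omin.cut_iff (h : Omin L) {g : ℝ → ℝ} (hg : Slow L g) {lam y : ℝ} (hl : 1 < lam) :
    Real.log lam / Real.log 2 = y ↔ (∀ ρ, ρ < y → Cut g lam ρ) ∧ ∀ ρ, y < ρ → ¬ Cut g lam ρ := by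
  constructor
  · rintro rfl
    exact ⟨fun ρ hρ => h.cut_lt hg hl hρ, fun ρ hρ => h.cut_gt hg hl hρ⟩
  · rintro ⟨h1, h2⟩
    rcases lt_trichotomy (Real.log lam / Real.log 2) y with h3 | h3 | h3
    · obtain ⟨ρ, hρ1, hρ2⟩ := exists_between h3
      exact absurd (h1 ρ hρ2) (h.cut_gt hg hl hρ1)
    · exact h3
    · obtain ⟨ρ, hρ1, hρ2⟩ := exists_between h3
      exact absurd (h.cut_lt hg hl hρ2) (h2 ρ hρ1)

theorem Omin.dcut (h : Omin L) {g : ℝ → ℝ} (hg : Slow L g) {F K : (α → ℝ) → ℝ} (hF : DF L F)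
    (hK : DF L K) : DP L (fun v => Cut g (F v) (K v)) := by
  have h1 : DP L (fun v : Fin 2 → ℝ => Cut g (v 0) (v 1)) := by
    unfold Cut
    apply DP.ex
    apply DP.all
    apply DP.imp
    · exact h.dle (DF.var _) (DF.var _)
    · exact h.dle (h.dmul (DF.var _) (h.dinc hg.df (DF.const 2) (DF.var _)))
        (h.dinc hg.df (DF.var _) (DF.var _))
  exact DP.sub2 (P := Cut g) h1 hF hK

/-- a slow definable function gives `exp` -/
theorem Omin.dexp (h : Omin L) {g : ℝ → ℝ} (hg : Slow L g) :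
    DF L (fun v : Fin 1 → ℝ => Real.exp (v 0)) := by
  have hl2 : 0 < Real.log 2 := Real.log_pos (by norm_num)
  -- `Q lam y`: `lam > 1` and `log₂ lam = y`
  have hQ : DP L (fun v : Fin 2 → ℝ => 1 < v 0 ∧ Real.log (v 0) / Real.log 2 = v 1) := by
    have h1 : DP L (fun v : Fin 2 → ℝ => 1 < v 0 ∧
        ((∀ ρ, ρ < v 1 → Cut g (v 0) ρ) ∧ ∀ ρ, v 1 < ρ → ¬ Cut g (v 0) ρ)) := by
      apply DP.and (h.dlt (DF.const 1) (DF.var 0))
      apply DP.and
      · apply DP.all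
        apply DP.imp
        · exact h.dlt (DF.var _) (DF.var _)
        · exact h.dcut hg (DF.var _) (DF.var _)
      · apply DP.all
        apply DP.imp
        · exact h.dlt (DF.var _) (DF.var _)
        · exact (h.dcut hg (DF.var _) (DF.var _)).not
    refine h1.congr (fun v => ?_)
    constructor
    · rintro ⟨h2, h3⟩
      exact ⟨h2, (h.cut_iff hg h2).2 h3⟩
    · rintro ⟨h2, h3⟩
      exact ⟨h2, (h.cut_iff hg h2).1 h3⟩
  have hQ2 : ∀ {F K : (Fin 2 ⊕ Unit → ℝ) → ℝ}, DF L F → DF L K →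
      DP L (fun v => 1 < F v ∧ Real.log (F v) / Real.log 2 = K v) := fun hF hK =>
    DP.sub2 (P := fun a b => 1 < a ∧ Real.log a / Real.log 2 = b) hQ hF hK
  apply DF.of_graph1
  have h1 : DP L (fun v : Fin 2 → ℝ => ∃ z, (0 < v 0 ∧ v 1 = z ∧
      (1 < z ∧ Real.log z / Real.log 2 = v 0 * (1 / Real.log 2))) ∨ (v 0 = 0 ∧ v 1 = 1) ∨
      (v 0 < 0 ∧ v 1 * z = 1 ∧ (1 < z ∧ Real.log z / Real.log 2 = v 0 * (-1 / Real.log 2)))) := by
    apply DP.ex
    apply DP.or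
    · apply DP.and (h.dlt (DF.const 0) (DF.var _))
      apply DP.and ((DF.var _).eq (DF.var _))
      exact hQ2 (DF.var _) (h.dmul (DF.var _) (DF.const _))
    apply DP.or
    · exact DP.and ((DF.var _).eq (DF.const 0)) ((DF.var _).eq (DF.const 1))
    · apply DP.and (h.dlt (DF.var _) (DF.const 0))
      apply DP.and ((h.dmul (DF.var _) (DF.var _)).eq (DF.const 1))
      exact hQ2 (DF.var _) (h.dmul (DF.var _) (DF.const _))
  refine h1.congr (fun v => ?_)
  constructor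
  · rintro ⟨z, ⟨-, h3, h4, h5⟩ | ⟨h2, h3⟩ | ⟨-, h3, h4, h5⟩⟩
    · have h6 : Real.log z = v 0 := by
        field_simp at h5
        exact h5
      rw [← h6, Real.exp_log (by linarith), h3]
    · rw [h2, h3, Real.exp_zero]
    · have h6 : Real.log z = - v 0 := by
        field_simp at h5
        linarith
      have h7 : v 0 = - Real.log z := by linarith
      rw [h7, Real.exp_neg, Real.exp_log (by linarith)]
      have h8 : z ≠ 0 := by positivity
      field_simp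
      linarith
  · intro h2
    rcases lt_trichotomy (v 0) 0 with h3 | h3 | h3
    · refine ⟨Real.exp (- v 0), Or.inr (Or.inr ⟨h3, ?_, ?_, ?_⟩)⟩
      · rw [← h2, ← Real.exp_add]
        simp
      · exact Real.one_lt_exp_iff.2 (by linarith)
      · rw [Real.log_exp]
        ring
    · refine ⟨0, Or.inr (Or.inl ⟨h3, ?_⟩)⟩
      rw [← h2, h3, Real.exp_zero]
    · refine ⟨v 1, Or.inl ⟨h3, rfl, ?_, ?_⟩⟩
      · rw [← h2]
        exact Real.one_lt_exp_iff.2 h3
      · rw [← h2, Real.log_exp]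
        ring

end

end Pool.Agent.Work.MP_973fa8.helper46
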