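import Pool.Agent.Work.MP_973fa8_helper46.Slow

/-! # MP_973fa8: growth rates between `x` and `h` (helper46) -/

set_option autoImplicit false

namespace Pool.Agent.Work.MP_973fa8.helper46

open Set Filter Topology

/-- `h` grows faster than all functions of level 0, `exp_m (C log_m x)` -/
def Above (h : ℝ → ℝ) : Prop :=
  ∀ (m : ℕ) (C : ℝ), ∀ᶠ x in atTop, Real.exp^[m] (C * Real.log^[m] x) < h x

theorem exp_it_mono (m : ℕ) : StrictMono (Real.exp^[m]) := Real.exp_strictMono.iterate m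

theorem log_exp_it (m : ℕ) (r : ℝ) : Real.log^[m] (Real.exp^[m] r) = r := by
  induction m generalizing r with
  | zero => rfl
  | succ m ih =>
    rw [Function.iterate_succ_apply, Function.iterate_succ_apply', Real.log_exp, ih]

theorem exp_log_it (m : ℕ) {r y : ℝ} (h : Real.exp^[m] r ≤ y) :
    Real.exp^[m] (Real.log^[m] y) = y ∧ r ≤ Real.log^[m] y := by
  induction m generalizing y with
  | zero => exact ⟨rfl, h⟩
  | succ m ih =>
    rw [Function.iterate_succ_apply'] at h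
    have hy : 0 < y := lt_of_lt_of_le (Real.exp_pos _) h
    have h1 : Real.exp^[m] r ≤ Real.log y := by
      rw [Real.le_log_iff_exp_le hy]
      exact h
    obtain ⟨h2, h3⟩ := ih h1
    rw [Function.iterate_succ_apply', Function.iterate_succ_apply]
    refine ⟨?_, h3⟩
    rw [h2, Real.exp_log hy]

theorem exp_it_nonneg (m : ℕ) {r : ℝ} (hr : 0 ≤ r) : 0 ≤ Real.exp^[m] r := by
  cases m with
  | zero => exact hr
  | succ m =>
    rw [Function.iterate_succ_apply']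
    exact (Real.exp_pos _).le

theorem exp_it_tt (m : ℕ) : Tendsto (Real.exp^[m]) atTop atTop := by
  induction m with
  | zero => exact tendsto_id
  | succ m ih =>
    have h1 : Real.exp^[m + 1] = Real.exp ∘ Real.exp^[m] := Function.iterate_succ' _ _
    rw [h1]
    exact Real.tendsto_exp_atTop.comp ih

theorem above_exp : Above Real.exp := by
  intro m C
  have h1 : ∀ᶠ r : ℝ in atTop, C * r < Real.exp r := by
    have h2 := (Real.isLittleO_pow_exp_atTop (n := 1)).bound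
      (c := 1 / (2 * (|C| + 1))) (by positivity)
    filter_upwards [h2, eventually_gt_atTop 0] with r hr hr0
    rw [pow_one, Real.norm_eq_abs, Real.norm_eq_abs, abs_of_pos hr0,
      abs_of_pos (Real.exp_pos r)] at hr
    have h3 : C * r ≤ |C| * r := mul_le_mul_of_nonneg_right (le_abs_self C) hr0.le
    have h4 : (2 * (|C| + 1)) * r ≤ Real.exp r := by
      rw [one_div, ← div_eq_inv_mul, le_div_iff₀ (by positivity)] at hr
      linarith
    have h5 := abs_nonneg C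
    nlinarith
  obtain ⟨R, hR⟩ := eventually_atTop.1 h1
  rw [eventually_atTop]
  refine ⟨Real.exp^[m] R, fun x hx => ?_⟩
  obtain ⟨h2, h3⟩ := exp_log_it m hx
  have h4 := exp_it_mono m (hR _ h3)
  have h5 : Real.exp^[m] (Real.exp (Real.log^[m] x)) = Real.exp x := by
    rw [← Function.iterate_succ_apply, Function.iterate_succ_apply', h2]
  rw [h5] at h4
  exact h4

/-- monotonicity in the constant -/
theorem lev_mono (m : ℕ) {C C' y y' : ℝ} (hC' : 0 ≤ C') (hC : C < C')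
    (hy : Real.exp^[m] 1 ≤ y) (hyy : y ≤ y') :
    Real.exp^[m] (C * Real.log^[m] y) < Real.exp^[m] (C' * Real.log^[m] y') := by
  obtain ⟨h1, h2⟩ := exp_log_it m hy
  obtain ⟨h3, h4⟩ := exp_log_it m (r := Real.log^[m] y) (y := y') (by rw [h1]; exact hyy)
  apply exp_it_mono m
  have h5 : C * Real.log^[m] y < C' * Real.log^[m] y :=
    mul_lt_mul_of_pos_right hC (by linarith)
  have h6 : C' * Real.log^[m] y ≤ C' * Real.log^[m] y' := mul_le_mul_of_nonneg_left h4 hC'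
  linarith

section
variable {L : FirstOrder.Language.{0, 0}} [L.Structure ℝ] {α : Type}

theorem Slow2.mo {g : ℝ → ℝ} (hg : Slow2 L g) (x y : ℝ) (hx : 0 ≤ x) (hxy : x ≤ y) :
    g x ≤ g y := by
  rcases hxy.eq_or_lt with h | h
  · rw [h]
  · exact (hg.st x y hx h).le

theorem Slow2.lt_of {g : ℝ → ℝ} (hg : Slow2 L g) {x y : ℝ} (hy : 0 ≤ y) (h : g x < g y) :
    x < y := by
  by_contra h1
  push Not at h1
  exact absurd (hg.mo y x hy h1) (not_le.2 h)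

/-- the relation `y = Φ t x` -/
def PR (g h : ℝ → ℝ) (t x y : ℝ) : Prop :=
  ((0 ≤ t ∧ t ≤ 1 ∧ 0 ≤ x ∧ x ≤ h x) ∧ 0 ≤ y ∧ g y = (1 - t) * g x + t * g (h x)) ∨
    (¬ (0 ≤ t ∧ t ≤ 1 ∧ 0 ≤ x ∧ x ≤ h x) ∧ y = x)

theorem PR_ex {g : ℝ → ℝ} (hg : Slow2 L g) (h : ℝ → ℝ) (t x : ℝ) : ∃ y, PR g h t x y := by
  by_cases hc : 0 ≤ t ∧ t ≤ 1 ∧ 0 ≤ x ∧ x ≤ h x
  · obtain ⟨ht0, ht1, hx0, hx1⟩ := hc
    have h1 := hg.mo x (h x) hx0 hx1
    have h2 : (1 - t) * g x + t * g (h x) ∈ Icc (g x) (g (h x)) := by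
      constructor <;> nlinarith
    obtain ⟨y, hy, hy2⟩ := intermediate_value_Icc hx1 hg.co.continuousOn h2
    exact ⟨y, Or.inl ⟨⟨ht0, ht1, hx0, hx1⟩, hx0.trans hy.1, hy2⟩⟩
  · exact ⟨x, Or.inr ⟨hc, rfl⟩⟩

theorem PR_un {g : ℝ → ℝ} (hg : Slow2 L g) (h : ℝ → ℝ) {t x y y' : ℝ} (hy : PR g h t x y)
    (hy' : PR g h t x y') : y = y' := by
  rcases hy with ⟨hc, hy0, hy1⟩ | ⟨hc, hy1⟩
  · rcases hy' with ⟨-, hy0', hy1'⟩ | ⟨hc', -⟩
    · rcases lt_trichotomy y y' with h1 | h1 | h1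
      · have := hg.st y y' hy0 h1
        linarith
      · exact h1
      · have := hg.st y' y hy0' h1
        linarith
    · exact absurd hc hc'
  · rcases hy' with ⟨hc', -⟩ | ⟨-, hy1'⟩
    · exact absurd hc' hc
    · rw [hy1, hy1']

/-- the path from `x` to `h x` -/
noncomputable def Ph {g : ℝ → ℝ} (hg : Slow2 L g) (h : ℝ → ℝ) (t x : ℝ) : ℝ :=
  Classical.choose (PR_ex hg h t x)

theorem Ph_spec {g : ℝ → ℝ} (hg : Slow2 L g) (h : ℝ → ℝ) (t x : ℝ) :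
    PR g h t x (Ph hg h t x) := Classical.choose_spec (PR_ex hg h t x)

theorem Omin.dPh (o : Omin L) {g : ℝ → ℝ} (hg : Slow2 L g) {h : ℝ → ℝ}
    (hh : DF L (fun v : Fin 1 → ℝ => h (v 0))) :
    DF L (fun v : Fin 2 → ℝ => Ph hg h (v 0) (v 1)) := by
  apply DF.of_graph2
  have h1 : DP L (fun v : Fin 3 → ℝ => PR g h (v 0) (v 1) (v 2)) := by
    unfold PR
    have hc : DP L (fun v : Fin 3 → ℝ => 0 ≤ v 0 ∧ v 0 ≤ 1 ∧ 0 ≤ v 1 ∧ v 1 ≤ h (v 1)) := by
      apply DP.and (o.dle (DF.const 0) (DF.var _))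
      apply DP.and (o.dle (DF.var _) (DF.const 1))
      exact DP.and (o.dle (DF.const 0) (DF.var _)) (o.dle (DF.var _) (DF.sub1 hh (DF.var _)))
    apply DP.or
    · apply DP.and hc
      apply DP.and (o.dle (DF.const 0) (DF.var _))
      apply DF.eq (DF.sub1 hg.df (DF.var _))
      exact o.dadd (o.dmul (o.dsub (DF.const 1) (DF.var _)) (DF.sub1 hg.df (DF.var _)))
        (o.dmul (DF.var _) (DF.sub1 hg.df (DF.sub1 hh (DF.var _))))
    · exact DP.and hc.not ((DF.var _).eq (DF.var _))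
  refine h1.congr (fun v => ?_)
  constructor
  · intro h2
    exact PR_un hg h (Ph_spec hg h (v 0) (v 1)) h2
  · intro h2
    rw [← h2]
    exact Ph_spec hg h (v 0) (v 1)

theorem Ph_g {g : ℝ → ℝ} (hg : Slow2 L g) {h : ℝ → ℝ} {t x : ℝ} (ht0 : 0 ≤ t) (ht1 : t ≤ 1)
    (hx0 : 0 ≤ x) (hx1 : x ≤ h x) : 0 ≤ Ph hg h t x ∧
      g (Ph hg h t x) = (1 - t) * g x + t * g (h x) := by
  rcases Ph_spec hg h t x with ⟨-, h1, h2⟩ | ⟨h1, -⟩
  · exact ⟨h1, h2⟩
  · exact absurd ⟨ht0, ht1, hx0, hx1⟩ h1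

theorem Ph_zero {g : ℝ → ℝ} (hg : Slow2 L g) {h : ℝ → ℝ} {x : ℝ}
    (hx0 : 0 ≤ x) (hx1 : x ≤ h x) : Ph hg h 0 x = x := by
  apply PR_un hg h (Ph_spec hg h 0 x)
  exact Or.inl ⟨⟨le_refl _, zero_le_one, hx0, hx1⟩, hx0, by ring⟩

theorem Ph_one {g : ℝ → ℝ} (hg : Slow2 L g) {h : ℝ → ℝ} {x : ℝ}
    (hx0 : 0 ≤ x) (hx1 : x ≤ h x) : Ph hg h 1 x = h x := by
  apply PR_un hg h (Ph_spec hg h 1 x)
  exact Or.inl ⟨⟨zero_le_one, le_refl _, hx0, hx1⟩, hx0.trans hx1, by ring⟩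

theorem Ph_ge {g : ℝ → ℝ} (hg : Slow2 L g) {h : ℝ → ℝ} {t x : ℝ} (ht0 : 0 ≤ t) (ht1 : t ≤ 1)
    (hx0 : 0 ≤ x) (hx1 : x ≤ h x) : x ≤ Ph hg h t x := by
  obtain ⟨h1, h2⟩ := Ph_g hg ht0 ht1 hx0 hx1
  by_contra h3
  push Not at h3
  have h4 := hg.st _ _ h1 h3
  have h5 := hg.mo x (h x) hx0 hx1
  nlinarith

theorem Ph_le {g : ℝ → ℝ} (hg : Slow2 L g) {h : ℝ → ℝ} {t x : ℝ} (ht0 : 0 ≤ t) (ht1 : t ≤ 1)
    (hx0 : 0 ≤ x) (hx1 : x ≤ h x) : Ph hg h t x ≤ h x := by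
  obtain ⟨h1, h2⟩ := Ph_g hg ht0 ht1 hx0 hx1
  by_contra h3
  push Not at h3
  have h4 := hg.st _ _ (hx0.trans hx1) h3
  have h5 := hg.mo x (h x) hx0 hx1
  nlinarith

/-- the main estimate -/
theorem Omin.path (o : Omin L) (hexp : DF L (fun v : Fin 1 → ℝ => Real.exp (v 0)))
    {g : ℝ → ℝ} (hg : Slow2 L g) {h : ℝ → ℝ} (hA : Above h) {τ : ℝ} (hτ : 0 < τ)
    (m : ℕ) (C : ℝ) :
    ∀ᶠ x in atTop, ∀ s t, 0 ≤ s → s + τ ≤ t → t ≤ 1 →
      Real.exp^[m] (C * Real.log^[m] (Ph hg h s x)) < Ph hg h t x := by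
  obtain ⟨C', hC'⟩ : ∃ C', C' = max C 0 + 2 := ⟨_, rfl⟩
  have hC'1 : 1 < C' := by
    rw [hC']
    have := le_max_right C 0
    linarith
  have hCC : C < C' := by
    rw [hC']
    have := le_max_left C 0
    linarith
  obtain ⟨G, hG⟩ : ∃ G : ℝ → ℝ, G = fun r => g (Real.exp^[m] r) := ⟨_, rfl⟩
  have hGd : DF L (fun v : Fin 1 → ℝ => G (v 0)) := by
    rw [hG]
    exact DF.sub1 hg.df (Omin.iter hexp m (DF.var 0))
  have hGt : Tendsto G atTop atTop := by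
    rw [hG]
    exact hg.tt.comp (exp_it_tt m)
  have hGm : ∀ x y, 0 ≤ x → x ≤ y → G x ≤ G y := by
    intro x y hx hxy
    rw [hG]
    exact hg.mo _ _ (exp_it_nonneg m hx) ((exp_it_mono m).monotone hxy)
  have hGp : ∀ r, 0 < r → 0 < inc G C' r := by
    intro r hr
    unfold inc
    rw [hG]
    have := hg.st (Real.exp^[m] r) (Real.exp^[m] (C' * r)) (exp_it_nonneg m hr.le)
      (exp_it_mono m (by nlinarith))
    simp only
    linarith
  have hGs : ∀ᶠ x in atTop, G x ≤ Real.log (Real.log x) := by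
    obtain ⟨R, hR⟩ := eventually_atTop.1 (hg.sl (m + 2))
    rw [eventually_atTop]
    refine ⟨Real.exp^[2] R, fun x hx => ?_⟩
    obtain ⟨h1, h2⟩ := exp_log_it 2 hx
    have h3 := hR _ h2
    rw [Function.iterate_add_apply, h1] at h3
    rw [hG]
    exact h3
  have hGp' : ∀ᶠ r in atTop, 0 < inc G C' r := by
    filter_upwards [eventually_gt_atTop 0] with r hr
    exact hGp r hr
  obtain ⟨a1, ha1⟩ := eventually_atTop.1 (o.r2 hGd hGs hC'1 hGp')
  obtain ⟨n, hn⟩ := exists_nat_gt (4 / τ)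
  have hn0 : (0 : ℝ) < n := lt_trans (by positivity) hn
  rw [div_lt_iff₀ hτ] at hn
  obtain ⟨a2, ha2⟩ := eventually_atTop.1 (o.many hGd hGt hC'1 hGp' n)
  obtain ⟨a3, ha3⟩ := eventually_atTop.1 (hA m (C' ^ n))
  obtain ⟨a4, ha4⟩ := eventually_atTop.1 (hA 0 1)
  obtain ⟨a, ha⟩ : ∃ a, a = max 1 (max a1 a2) := ⟨_, rfl⟩
  have ha1' : 1 ≤ a := by rw [ha]; exact le_max_left _ _
  have ha11 : a1 ≤ a := by rw [ha]; exact (le_max_left _ _).trans (le_max_right _ _)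
  have ha12 : a2 ≤ a := by rw [ha]; exact (le_max_right _ _).trans (le_max_right _ _)
  rw [eventually_atTop]
  refine ⟨max (max (Real.exp^[m] a) a3) (max a4 0), fun x hx s t hs hst ht => ?_⟩
  have hx1 : Real.exp^[m] a ≤ x := ((le_max_left _ _).trans (le_max_left _ _)).trans hx
  have hx2 : a3 ≤ x := ((le_max_right _ _).trans (le_max_left _ _)).trans hx
  have hx3 : a4 ≤ x := ((le_max_left _ _).trans (le_max_right _ _)).trans hx
  have hx0 : 0 ≤ x := ((le_max_right _ _).trans (le_max_right _ _)).trans hx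
  have hhx : x < h x := by
    have := ha4 x hx3
    simpa using this
  obtain ⟨hr1, hr2⟩ := exp_log_it m hx1
  obtain ⟨r, hr⟩ : ∃ r, r = Real.log^[m] x := ⟨_, rfl⟩
  rw [← hr] at hr1 hr2
  have hs1 : s ≤ 1 := by linarith
  have ht0 : 0 ≤ t := by linarith
  obtain ⟨hs2, hs3⟩ := Ph_g hg hs hs1 hx0 hhx.le
  obtain ⟨ht2, ht3⟩ := Ph_g hg ht0 ht hx0 hhx.le
  have hsx := Ph_ge hg hs hs1 hx0 hhx.le
  obtain ⟨hρ1, hρ2⟩ := exp_log_it m (r := r) (y := Ph hg h s x) (by rw [hr1]; exact hsx)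
  obtain ⟨ρ, hρ⟩ : ∃ ρ, ρ = Real.log^[m] (Ph hg h s x) := ⟨_, rfl⟩
  rw [← hρ] at hρ1 hρ2 ⊢
  have e1 := inc_mono hGm hC'1 (by linarith : 0 < a) (fun r' hr' => ha1 r' (ha11.trans hr'))
    hr2 hρ2
  have e2 := ha2 r (ha12.trans hr2)
  have e3 : G (C' ^ n * r) ≤ g (h x) := by
    have h1 := ha3 x hx2
    rw [← hr] at h1
    rw [hG]
    apply hg.mo _ _ _ h1.le
    apply exp_it_nonneg
    have : 0 ≤ r := by linarith
    positivity
  have e4 : G r = g x := by rw [hG]; simp only; rw [hr1]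
  have e5 : G ρ = g (Ph hg h s x) := by rw [hG]; simp only; rw [hρ1]
  have e6 : g x < g (h x) := hg.st _ _ hx0 hhx
  have e7 := hGp r (by linarith)
  -- `inc ρ < τ (g (h x) - g x)`
  have e8 : n * inc G C' ρ ≤ 4 * (g (h x) - g x) := by
    have h1 : n * inc G C' ρ ≤ n * (2 * inc G C' r) := mul_le_mul_of_nonneg_left e1 hn0.le
    have h2 : n * (2 * inc G C' r) = 2 * (n * inc G C' r) := by ring
    linarith
  have e9 : 4 * (g (h x) - g x) < n * (τ * (g (h x) - g x)) := by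
    have h1 : 4 * (g (h x) - g x) < n * τ * (g (h x) - g x) :=
      mul_lt_mul_of_pos_right hn (by linarith)
    linarith
  have e10 : inc G C' ρ < τ * (g (h x) - g x) :=
    lt_of_mul_lt_mul_left (lt_of_le_of_lt e8 e9) hn0.le
  have e11 : τ * (g (h x) - g x) ≤ (t - s) * (g (h x) - g x) :=
    mul_le_mul_of_nonneg_right (by linarith) (by linarith)
  have e12 : g (Real.exp^[m] (C' * ρ)) < g (Ph hg h t x) := by
    have h1 : inc G C' ρ = g (Real.exp^[m] (C' * ρ)) - G ρ := by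
      unfold inc
      rw [hG]
    rw [h1, e5, hs3] at e10
    rw [ht3]
    nlinarith
  have e13 := hg.lt_of ht2 e12
  refine lt_of_le_of_lt ?_ e13
  apply (exp_it_mono m).monotone
  exact mul_le_mul_of_nonneg_right hCC.le (by linarith)

end

end Pool.Agent.Work.MP_973fa8.helper46
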