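import Pool.Agent.Work.MP_973fa8_helper46.Def

/-! # MP_973fa8: regular variation of slow definable functions (helper46) -/

set_option autoImplicit false

namespace Pool.Agent.Work.MP_973fa8.helper46

open Set Filter Topology

/-- increment of `G` between `r` and `C r` -/
def inc (G : ℝ → ℝ) (C r : ℝ) : ℝ := G (C * r) - G r

theorem sum_inc (G : ℝ → ℝ) (C r : ℝ) (n : ℕ) :
    G (C ^ n * r) - G r = ∑ i ∈ Finset.range n, inc G C (C ^ i * r) := by
  induction n with
  | zero => simp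
  | succ n ih =>
    rw [Finset.sum_range_succ, ← ih]
    unfold inc
    rw [pow_succ' C n, mul_assoc]
    ring

theorem pow_mul_ge {C a : ℝ} (hC : 1 < C) (ha : 0 < a) (n : ℕ) : a ≤ C ^ n * a := by
  have h1 : (1 : ℝ) ≤ C ^ n := one_le_pow₀ hC.le
  nlinarith

theorem tendsto_pow_mul {C a : ℝ} (hC : 1 < C) (ha : 0 < a) :
    Tendsto (fun n : ℕ => C ^ n * a) atTop atTop :=
  (tendsto_pow_atTop_atTop_of_one_lt hC).atTop_mul_const ha

theorem inc_le_pow {G : ℝ → ℝ} {C a c : ℝ} (hC : 1 < C) (ha : 0 < a) (hc : 0 ≤ c)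
    (h : ∀ r, a ≤ r → inc G C (C * r) ≤ c * inc G C r) (n : ℕ) :
    inc G C (C ^ n * a) ≤ c ^ n * inc G C a := by
  induction n with
  | zero => simp
  | succ n ih =>
    have h1 := h (C ^ n * a) (pow_mul_ge hC ha n)
    rw [pow_succ' C n, mul_assoc, pow_succ' c n, mul_assoc]
    exact h1.trans (mul_le_mul_of_nonneg_left ih hc)

theorem inc_ge_pow {G : ℝ → ℝ} {C a c : ℝ} (hC : 1 < C) (ha : 0 < a) (hc : 0 ≤ c)
    (h : ∀ r, a ≤ r → c * inc G C r ≤ inc G C (C * r)) (n : ℕ) :
    c ^ n * inc G C a ≤ inc G C (C ^ n * a) := by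
  induction n with
  | zero => simp
  | succ n ih =>
    have h1 := h (C ^ n * a) (pow_mul_ge hC ha n)
    rw [pow_succ' C n, mul_assoc, pow_succ' c n, mul_assoc]
    exact (mul_le_mul_of_nonneg_left ih hc).trans h1

/-- increments cannot decrease geometrically -/
theorem no_geom {G : ℝ → ℝ} (hG : Tendsto G atTop atTop) {C a c : ℝ} (hC : 1 < C) (ha : 0 < a)
    (hc : 0 ≤ c) (hc1 : c < 1) (h : ∀ r, a ≤ r → inc G C (C * r) ≤ c * inc G C r) : False := by
  have h1 : ∀ n : ℕ, G (C ^ n * a) ≤ G a + |inc G C a| / (1 - c) := by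
    intro n
    have h2 := sum_inc G C a n
    have h3 : ∑ i ∈ Finset.range n, inc G C (C ^ i * a) ≤
        ∑ i ∈ Finset.range n, c ^ i * |inc G C a| := by
      apply Finset.sum_le_sum
      intro i _
      exact (inc_le_pow hC ha hc h i).trans
        (mul_le_mul_of_nonneg_left (le_abs_self _) (pow_nonneg hc i))
    have h4 : ∑ i ∈ Finset.range n, c ^ i * |inc G C a| ≤ |inc G C a| / (1 - c) := by
      rw [← Finset.sum_mul, div_eq_mul_inv, mul_comm]
      apply mul_le_mul_of_nonneg_left _ (abs_nonneg _)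
      have h5 := geom_sum_eq (ne_of_lt hc1) n
      rw [h5, ← neg_div_neg_eq, neg_sub, neg_sub, ← one_div]
      apply div_le_div_of_nonneg_right _ (by linarith)
      have := pow_nonneg hc n
      linarith
    linarith
  have h2 := hG.comp (tendsto_pow_mul hC ha)
  obtain ⟨n, hn⟩ := (h2.eventually_gt_atTop (G a + |inc G C a| / (1 - c))).exists
  exact absurd hn (not_lt.2 (h1 n))

section
variable {L : FirstOrder.Language.{0, 0}} [L.Structure ℝ] {α : Type}

theorem Omin.dinc (h : Omin L) {G : ℝ → ℝ} (hG : DF L (fun v : Fin 1 → ℝ => G (v 0)))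
    {F K : (α → ℝ) → ℝ} (hF : DF L F) (hK : DF L K) : DF L (fun v => inc G (F v) (K v)) :=
  h.dsub (DF.sub1 hG (h.dmul hF hK)) (DF.sub1 hG hK)

/-- (R1) -/
theorem Omin.r1 (h : Omin L) {G : ℝ → ℝ} (hG : DF L (fun v : Fin 1 → ℝ => G (v 0)))
    (hGt : Tendsto G atTop atTop) {C c : ℝ} (hC : 1 < C) (hc : 0 ≤ c) (hc1 : c < 1) :
    ∀ᶠ r in atTop, c * inc G C r ≤ inc G C (C * r) := by
  apply h.ev
  · exact h.dle (h.dmul (DF.const c) (h.dinc hG (DF.const C) (DF.var 0)))
      (h.dinc hG (DF.const C) (h.dmul (DF.const C) (DF.var 0)))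
  · intro hn
    obtain ⟨a, ha⟩ := eventually_atTop.1 hn
    apply no_geom hGt hC (lt_of_lt_of_le zero_lt_one (le_max_right a 1)) hc hc1
    intro r hr
    exact (not_le.1 (ha r ((le_max_left a 1).trans hr))).le

/-- (R2') -/
theorem Omin.r2' (h : Omin L) {G : ℝ → ℝ} (hG : DF L (fun v : Fin 1 → ℝ => G (v 0)))
    (hGs : ∀ k : ℕ, 1 ≤ k → ∀ᶠ x in atTop, G (x ^ k) ≤ x) (hGm : ∀ x y, 0 ≤ x → x ≤ y → G x ≤ G y)
    {C c : ℝ} (hC : 1 < C) (hc1 : 1 < c)
    (hpos : ∀ r, 0 < r → 0 < inc G C r) :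
    ∀ᶠ r in atTop, inc G C (C * r) ≤ c * inc G C r := by
  apply h.ev
  · exact h.dle (h.dinc hG (DF.const C) (h.dmul (DF.const C) (DF.var 0)))
      (h.dmul (DF.const c) (h.dinc hG (DF.const C) (DF.var 0)))
  · intro hn
    obtain ⟨a0, ha0⟩ := eventually_atTop.1 hn
    obtain ⟨a, ha⟩ : ∃ a, a = max a0 1 := ⟨_, rfl⟩
    have ha1 : 1 ≤ a := by rw [ha]; exact le_max_right _ _
    have ha2 : a0 ≤ a := by rw [ha]; exact le_max_left _ _
    have hap : 0 < a := by linarith
    have hc0 : 0 ≤ c := by linarith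
    have hge := inc_ge_pow (G := G) (c := c) hC hap hc0 (fun r hr =>
      (not_le.1 (ha0 r (ha2.trans hr))).le)
    obtain ⟨k, hk⟩ := pow_unbounded_of_one_lt C hc1
    obtain ⟨k', hk'⟩ : ∃ k', k' = k + 1 := ⟨_, rfl⟩
    have hk1 : C ≤ c ^ k' := by
      rw [hk']
      exact hk.le.trans (pow_le_pow_right₀ hc1.le (by omega))
    -- upper bound
    obtain ⟨X, hX⟩ := eventually_atTop.1 (hGs (2 * k') (by omega))
    have hup : ∀ n : ℕ, X ≤ c ^ n * a → G (C ^ (2 * n) * a) ≤ c ^ n * a := by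
      intro n hn
      have h1 := hX _ hn
      have h2 : C ^ (2 * n) * a ≤ (c ^ n * a) ^ (2 * k') := by
        have e1 : C ^ (2 * n) ≤ (c ^ k') ^ (2 * n) := pow_le_pow_left₀ (by linarith) hk1 _
        have e2 : (c ^ n * a) ^ (2 * k') = (c ^ k') ^ (2 * n) * a ^ (2 * k') := by
          rw [mul_pow, ← pow_mul, ← pow_mul]
          congr 2
          ring
        rw [e2]
        apply mul_le_mul e1 _ hap.le (by positivity)
        calc a = a ^ 1 := (pow_one a).symm
          _ ≤ a ^ (2 * k') := pow_le_pow_right₀ ha1 (by omega)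
      exact (hGm _ _ (by positivity) h2).trans h1
    -- lower bound
    have hlow : ∀ n : ℕ, G a + c ^ (2 * n) * inc G C a ≤ G (C ^ (2 * n + 1) * a) := by
      intro n
      have h1 := hge (2 * n)
      have h2 : G a ≤ G (C ^ (2 * n) * a) := hGm _ _ hap.le (pow_mul_ge hC hap _)
      have h3 : inc G C (C ^ (2 * n) * a) = G (C ^ (2 * n + 1) * a) - G (C ^ (2 * n) * a) := by
        unfold inc
        rw [← mul_assoc, ← pow_succ']
      rw [h3] at h1
      linarith
    have hia := hpos a hap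
    -- contradiction
    have ht : Tendsto (fun n : ℕ => c ^ n * a) atTop atTop := tendsto_pow_mul hc1 hap
    have ht2 : Tendsto (fun n : ℕ => c ^ n * (inc G C a / c ^ 2)) atTop atTop :=
      tendsto_pow_mul hc1 (by positivity)
    obtain ⟨n, hn1, hn2, hn3⟩ := ((ht.eventually_ge_atTop X).and
      ((ht2.eventually_ge_atTop (a + |G a| + 1)).and (eventually_ge_atTop 1))).exists
    have h1 := hup n hn1
    obtain ⟨n', rfl⟩ : ∃ n', n = n' + 1 := ⟨n - 1, by omega⟩
    have h2 := hlow n'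
    have h3 : G (C ^ (2 * n' + 1) * a) ≤ G (C ^ (2 * (n' + 1)) * a) := by
      apply hGm _ _ (by positivity)
      apply mul_le_mul_of_nonneg_right _ hap.le
      exact pow_le_pow_right₀ hC.le (by omega)
    have h4 : c ^ (2 * n') * inc G C a = c ^ (n' + 1) * (c ^ (n' + 1) * (inc G C a / c ^ 2)) := by
      field_simp
      ring
    have h5 : c ^ (n' + 1) * (a + |G a| + 1) ≤ c ^ (n' + 1) * (c ^ (n' + 1) * (inc G C a / c ^ 2)) :=
      mul_le_mul_of_nonneg_left hn2 (by positivity)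
    have h6 : (1 : ℝ) < c ^ (n' + 1) := one_lt_pow₀ hc1 (by omega)
    have h7 : -|G a| ≤ G a := neg_abs_le _
    have h8 : |G a| ≤ c ^ (n' + 1) * |G a| := by
      have := abs_nonneg (G a)
      nlinarith
    have h9 : c ^ (n' + 1) * (a + |G a| + 1) =
        c ^ (n' + 1) * a + c ^ (n' + 1) * |G a| + c ^ (n' + 1) := by ring
    linarith

/-- (R2) -/
theorem Omin.r2 (h : Omin L) {G : ℝ → ℝ} (hG : DF L (fun v : Fin 1 → ℝ => G (v 0)))
    (hGs : ∀ᶠ x in atTop, G x ≤ Real.log (Real.log x)) {C : ℝ} (hC : 1 < C)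
    (hpos : ∀ᶠ r in atTop, 0 < inc G C r) :
    ∀ᶠ r in atTop, inc G C (C * r) ≤ inc G C r := by
  apply h.ev
  · exact h.dle (h.dinc hG (DF.const C) (h.dmul (DF.const C) (DF.var 0)))
      (h.dinc hG (DF.const C) (DF.var 0))
  · intro hn
    obtain ⟨a0, ha0⟩ := eventually_atTop.1 (hn.and hpos)
    obtain ⟨a, ha⟩ : ∃ a, a = max a0 1 := ⟨_, rfl⟩
    have ha1 : 1 ≤ a := by rw [ha]; exact le_max_right _ _
    have ha2 : a0 ≤ a := by rw [ha]; exact le_max_left _ _
    have hap : 0 < a := by linarith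
    have hge := inc_ge_pow (G := G) (c := 1) hC hap zero_le_one (fun r hr => by
      rw [one_mul]
      exact (not_le.1 (ha0 r (ha2.trans hr)).1).le)
    have hia := (ha0 a ha2).2
    -- lower bound
    have hlow : ∀ n : ℕ, G a + n * inc G C a ≤ G (C ^ n * a) := by
      intro n
      have h1 := sum_inc G C a n
      have h2 : ∑ i ∈ Finset.range n, inc G C a ≤ ∑ i ∈ Finset.range n, inc G C (C ^ i * a) := by
        apply Finset.sum_le_sum
        intro i _
        have := hge i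
        rw [one_pow, one_mul] at this
        exact this
      rw [Finset.sum_const, Finset.card_range, nsmul_eq_mul] at h2
      linarith
    -- upper bound
    have ht : Tendsto (fun n : ℕ => C ^ n * a) atTop atTop := tendsto_pow_mul hC hap
    have hlo : Tendsto (fun n : ℕ => (n : ℝ) * Real.log C + Real.log a) atTop atTop :=
      tendsto_atTop_add_const_right _ _
        (tendsto_natCast_atTop_atTop.atTop_mul_const (Real.log_pos hC))
    have hlog : ∀ᶠ x : ℝ in atTop, Real.log x ≤ inc G C a / (2 * Real.log C) * x := by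
      have h1 : 0 < inc G C a / (2 * Real.log C) := by
        have := Real.log_pos hC
        positivity
      have h2 := (Real.isLittleO_log_id_atTop).bound h1
      filter_upwards [h2, eventually_ge_atTop 1] with x hx hx1
      simp only [id, Real.norm_eq_abs] at hx
      rw [abs_of_nonneg (Real.log_nonneg hx1), abs_of_nonneg (by linarith : (0 : ℝ) ≤ x)] at hx
      exact hx
    have h3 : Tendsto (fun n : ℕ => (n : ℝ) * (inc G C a / 2)) atTop atTop :=
      tendsto_natCast_atTop_atTop.atTop_mul_const (by positivity)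
    obtain ⟨n, hn1, hn2, hn3⟩ := ((ht.eventually hGs).and ((hlo.eventually hlog).and
      (h3.eventually_gt_atTop (inc G C a / (2 * Real.log C) * Real.log a - G a)))).exists
    have h4 := hlow n
    have h5 : Real.log (C ^ n * a) = n * Real.log C + Real.log a := by
      rw [Real.log_mul (by positivity) (by positivity), Real.log_pow]
    rw [h5] at hn1
    have h6 : inc G C a / (2 * Real.log C) * (n * Real.log C + Real.log a) =
        n * (inc G C a / 2) + inc G C a / (2 * Real.log C) * Real.log a := by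
      have := Real.log_pos hC
      field_simp
    rw [h6] at hn2
    linarith

/-- monotonicity of the increments in the weak form -/
theorem inc_mono {G : ℝ → ℝ} (hGm : ∀ x y, 0 ≤ x → x ≤ y → G x ≤ G y) {C a : ℝ} (hC : 1 < C)
    (ha : 0 < a) (h : ∀ r, a ≤ r → inc G C (C * r) ≤ inc G C r) {r ρ : ℝ} (hr : a ≤ r)
    (hρ : r ≤ ρ) : inc G C ρ ≤ 2 * inc G C r := by
  have hr0 : 0 < r := by linarith
  have h1 : ∀ n : ℕ, inc G C (C ^ n * r) ≤ inc G C r := by
    intro n
    induction n with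
    | zero => simp
    | succ n ih =>
      rw [pow_succ' C n, mul_assoc]
      exact (h _ (hr.trans (pow_mul_ge hC hr0 n))).trans ih
  have hex : ∃ n : ℕ, ρ < C ^ n * r := ((tendsto_pow_mul hC hr0).eventually_gt_atTop ρ).exists
  classical
  obtain ⟨n, hn, hmin⟩ : ∃ n : ℕ, ρ < C ^ n * r ∧ ∀ j < n, ¬ ρ < C ^ j * r :=
    ⟨Nat.find hex, Nat.find_spec hex, fun j hj => Nat.find_min hex hj⟩
  have hn0 : n ≠ 0 := by
    rintro rfl
    simp at hn
    linarith
  obtain ⟨j, rfl⟩ := Nat.exists_eq_succ_of_ne_zero hn0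
  have hj := not_lt.1 (hmin j (Nat.lt_succ_self j))
  have e1 : G (C * ρ) ≤ G (C ^ (j + 2) * r) := by
    apply hGm _ _ (by nlinarith)
    have h2 : C * ρ ≤ C * (C ^ (j + 1) * r) := mul_le_mul_of_nonneg_left hn.le (by linarith)
    calc C * ρ ≤ C * (C ^ (j + 1) * r) := h2
      _ = C ^ (j + 2) * r := by ring
  have e2 : G (C ^ j * r) ≤ G ρ := hGm _ _ (by positivity) hj
  have e3 := h1 j
  have e4 := h1 (j + 1)
  have e5 : inc G C (C ^ j * r) = G (C ^ (j + 1) * r) - G (C ^ j * r) := by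
    unfold inc
    rw [← mul_assoc, ← pow_succ']
  have e6 : inc G C (C ^ (j + 1) * r) = G (C ^ (j + 2) * r) - G (C ^ (j + 1) * r) := by
    unfold inc
    rw [← mul_assoc, ← pow_succ']
  have e7 : inc G C ρ = G (C * ρ) - G ρ := rfl
  linarith

/-- (Claim 1): a single increment is small compared with many -/
theorem Omin.many (h : Omin L) {G : ℝ → ℝ} (hG : DF L (fun v : Fin 1 → ℝ => G (v 0)))
    (hGt : Tendsto G atTop atTop) {C : ℝ} (hC : 1 < C)
    (hpos : ∀ᶠ r in atTop, 0 < inc G C r) (n : ℕ) :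
    ∀ᶠ r in atTop, n * inc G C r ≤ 2 * (G (C ^ n * r) - G r) := by
  -- `c ^ i ≥ 1 / 2` for `i < n`
  obtain ⟨c, hc0, hc1, hcn⟩ : ∃ c : ℝ, 0 ≤ c ∧ c < 1 ∧ ∀ i < n, 1 / 2 ≤ c ^ i := by
    refine ⟨1 - 1 / (2 * (n + 1)), ?_, ?_, ?_⟩
    · have : 1 / (2 * ((n : ℝ) + 1)) ≤ 1 := by
        rw [div_le_one (by positivity)]
        have : (0 : ℝ) ≤ n := Nat.cast_nonneg n
        linarith
      linarith
    · have : 0 < 1 / (2 * ((n : ℝ) + 1)) := by positivity
      linarith
    · intro i hi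
      have h1 : (-2 : ℝ) ≤ -(1 / (2 * ((n : ℝ) + 1))) := by
        have : 1 / (2 * ((n : ℝ) + 1)) ≤ 1 := by
          rw [div_le_one (by positivity)]
          have : (0 : ℝ) ≤ n := Nat.cast_nonneg n
          linarith
        linarith
      have h2 := one_add_mul_le_pow h1 i
      have h3 : (i : ℝ) * (1 / (2 * ((n : ℝ) + 1))) ≤ 1 / 2 := by
        rw [mul_one_div, div_le_iff₀ (by positivity)]
        have : (i : ℝ) ≤ n := by exact_mod_cast hi.le
        linarith
      calc (1 / 2 : ℝ) ≤ 1 + i * -(1 / (2 * ((n : ℝ) + 1))) := by linarith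
        _ ≤ (1 + -(1 / (2 * ((n : ℝ) + 1)))) ^ i := h2
        _ = (1 - 1 / (2 * ((n : ℝ) + 1))) ^ i := by ring
  obtain ⟨a0, ha0⟩ := eventually_atTop.1 ((h.r1 hG hGt hC hc0 hc1).and hpos)
  rw [eventually_atTop]
  refine ⟨max a0 1, fun r hr => ?_⟩
  have hr1 : a0 ≤ r := (le_max_left _ _).trans hr
  have hr0 : 0 < r := lt_of_lt_of_le zero_lt_one ((le_max_right a0 1).trans hr)
  have hge := inc_ge_pow (G := G) hC hr0 hc0 (fun ρ hρ => (ha0 ρ (hr1.trans hρ)).1)
  have hir := (ha0 r hr1).2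
  rw [sum_inc]
  have h2 : ∑ i ∈ Finset.range n, (1 / 2 : ℝ) * inc G C r ≤
      ∑ i ∈ Finset.range n, inc G C (C ^ i * r) := by
    apply Finset.sum_le_sum
    intro i hi
    exact (mul_le_mul_of_nonneg_right (hcn i (Finset.mem_range.1 hi)) hir.le).trans (hge i)
  rw [Finset.sum_const, Finset.card_range, nsmul_eq_mul] at h2
  linarith

end

end Pool.Agent.Work.MP_973fa8.helper46
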