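import Pool.Agent.Work.MP_973fa8_helper46.Path

/-! # MP_973fa8: approximate compositional roots (helper46) -/

set_option autoImplicit false

namespace Pool.Agent.Work.MP_973fa8.helper46

open Set Filter Topology

section
variable {L : FirstOrder.Language.{0, 0}} [L.Structure ℝ] {α : Type}

/-- values of `h` on `[max x a, ∞)` -/
def HS (h : ℝ → ℝ) (a x z : ℝ) : Prop := ∃ y, x ≤ y ∧ a ≤ y ∧ z = h y

/-- nondecreasing minorant -/
noncomputable def hmin (h : ℝ → ℝ) (a x : ℝ) : ℝ := sInf {z | HS h a x z}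

theorem HS_ne (h : ℝ → ℝ) (a x : ℝ) : ∃ z, HS h a x z :=
  ⟨h (max x a), max x a, le_max_left _ _, le_max_right _ _, rfl⟩

theorem HS_bdd {h : ℝ → ℝ} {a : ℝ} (ha : ∀ y, a ≤ y → y < h y) (x : ℝ) :
    BddBelow {z | HS h a x z} :=
  ⟨x, by
    rintro z ⟨y, hy, hay, rfl⟩
    exact hy.trans (ha y hay).le⟩

theorem hmin_ge {h : ℝ → ℝ} {a : ℝ} (ha : ∀ y, a ≤ y → y < h y) (x : ℝ) : x ≤ hmin h a x := by
  apply le_csInf (HS_ne h a x)
  rintro z ⟨y, hy, hay, rfl⟩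
  exact hy.trans (ha y hay).le

theorem hmin_mono {h : ℝ → ℝ} {a : ℝ} (ha : ∀ y, a ≤ y → y < h y) {x x' : ℝ} (hx : x ≤ x') :
    hmin h a x ≤ hmin h a x' := by
  apply csInf_le_csInf (HS_bdd ha x) (HS_ne h a x')
  rintro z ⟨y, hy, hay, rfl⟩
  exact ⟨y, hx.trans hy, hay, rfl⟩

theorem hmin_le {h : ℝ → ℝ} {a : ℝ} (ha : ∀ y, a ≤ y → y < h y) {x : ℝ} (hx : a ≤ x) :
    hmin h a x ≤ h x :=
  csInf_le (HS_bdd ha x) ⟨x, le_refl _, hx, rfl⟩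

theorem Omin.dhmin (o : Omin L) {h : ℝ → ℝ} (hh : DF L (fun v : Fin 1 → ℝ => h (v 0))) {a : ℝ}
    (ha : ∀ y, a ≤ y → y < h y) : DF L (fun v : Fin 1 → ℝ => hmin h a (v 0)) := by
  unfold hmin
  apply o.dinf (S := fun v z => HS h a (v 0) z)
  · unfold HS
    apply DP.ex
    apply DP.and (o.dle (DF.var _) (DF.var _))
    exact DP.and (o.dle (DF.const a) (DF.var _)) ((DF.var _).eq (DF.sub1 hh (DF.var _)))
  · exact fun v => HS_ne h a (v 0)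
  · exact fun v => HS_bdd ha (v 0)

theorem hmin_above {h : ℝ → ℝ} (hA : Above h) (a : ℝ) : Above (hmin h a) := by
  intro m C
  obtain ⟨C', hC'⟩ : ∃ C', C' = max C 0 + 1 := ⟨_, rfl⟩
  have hC0 : 0 ≤ C' := by
    rw [hC']
    have := le_max_right C 0
    linarith
  have hCC : C < C' := by
    rw [hC']
    have := le_max_left C 0
    linarith
  obtain ⟨X, hX⟩ := eventually_atTop.1 (hA m C')
  obtain ⟨C'', hC''⟩ : ∃ C'', C'' = C' + 1 := ⟨_, rfl⟩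
  rw [eventually_atTop]
  refine ⟨max X (Real.exp^[m] 1), fun x hx => ?_⟩
  have hx1 : X ≤ x := (le_max_left _ _).trans hx
  have hx2 : Real.exp^[m] 1 ≤ x := (le_max_right _ _).trans hx
  refine lt_of_lt_of_le (lev_mono m hC0 hCC hx2 (le_refl x)) ?_
  apply le_csInf (HS_ne h a x)
  rintro z ⟨y, hy, hay, rfl⟩
  refine le_trans ?_ (hX y (hx1.trans hy)).le
  obtain ⟨h1, h2⟩ := exp_log_it m hx2
  obtain ⟨h3, h4⟩ := exp_log_it m (r := Real.log^[m] x) (y := y) (by rw [h1]; exact hy)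
  apply (exp_it_mono m).monotone
  exact mul_le_mul_of_nonneg_left h4 hC0

/-- the values of `Φ (s + τ) x` with `y ≤ Φ s x` -/
def XS {g : ℝ → ℝ} (hg : Slow2 L g) (h : ℝ → ℝ) (τ y z : ℝ) : Prop :=
  ∃ x, ∃ s, 0 ≤ x ∧ 0 ≤ s ∧ s + τ ≤ 1 ∧ y ≤ Ph hg h s x ∧ z = Ph hg h (s + τ) x

/-- the approximate root -/
noncomputable def xi {g : ℝ → ℝ} (hg : Slow2 L g) (h : ℝ → ℝ) (τ y : ℝ) : ℝ :=
  sInf {z | XS hg h τ y z}

theorem XS_ne {g : ℝ → ℝ} (hg : Slow2 L g) {h : ℝ → ℝ} (hh : ∀ x, x ≤ h x) {τ : ℝ}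
    (hτ1 : τ ≤ 1) (y : ℝ) : ∃ z, XS hg h τ y z := by
  refine ⟨Ph hg h (0 + τ) (max y 0), max y 0, 0, le_max_right _ _, le_refl _, by linarith, ?_,
    rfl⟩
  rw [Ph_zero hg (le_max_right _ _) (hh _)]
  exact le_max_left _ _

theorem XS_bdd {g : ℝ → ℝ} (hg : Slow2 L g) {h : ℝ → ℝ} (hh : ∀ x, x ≤ h x) {τ : ℝ}
    (hτ : 0 ≤ τ) (y : ℝ) : BddBelow {z | XS hg h τ y z} :=
  ⟨0, by
    rintro z ⟨x, s, hx, hs, hs1, -, rfl⟩
    exact hx.trans (Ph_ge hg (by linarith) hs1 hx (hh x))⟩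

theorem Omin.dxi (o : Omin L) {g : ℝ → ℝ} (hg : Slow2 L g) {h : ℝ → ℝ}
    (hd : DF L (fun v : Fin 1 → ℝ => h (v 0))) (hh : ∀ x, x ≤ h x) {τ : ℝ}
    (hτ : 0 ≤ τ) (hτ1 : τ ≤ 1) : DF L (fun v : Fin 1 → ℝ => xi hg h τ (v 0)) := by
  unfold xi
  have hP := o.dPh hg hd
  apply o.dinf (S := fun v z => XS hg h τ (v 0) z)
  · unfold XS
    apply DP.ex
    apply DP.ex
    apply DP.and (o.dle (DF.const 0) (DF.var _))
    apply DP.and (o.dle (DF.const 0) (DF.var _))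
    apply DP.and (o.dle (o.dadd (DF.var _) (DF.const τ)) (DF.const 1))
    apply DP.and (o.dle (DF.var _) (DF.sub2 hP (DF.var _) (DF.var _)))
    exact (DF.var _).eq (DF.sub2 hP (o.dadd (DF.var _) (DF.const τ)) (DF.var _))
  · exact fun v => XS_ne hg hh hτ1 (v 0)
  · exact fun v => XS_bdd hg hh hτ (v 0)

theorem xi_mono {g : ℝ → ℝ} (hg : Slow2 L g) {h : ℝ → ℝ} (hh : ∀ x, x ≤ h x) {τ : ℝ}
    (hτ : 0 ≤ τ) (hτ1 : τ ≤ 1) {y y' : ℝ} (hy : y ≤ y') : xi hg h τ y ≤ xi hg h τ y' := by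
  apply csInf_le_csInf (XS_bdd hg hh hτ y) (XS_ne hg hh hτ1 y')
  rintro z ⟨x, s, hx, hs, hs1, h1, h2⟩
  exact ⟨x, s, hx, hs, hs1, hy.trans h1, h2⟩

theorem xi_le {g : ℝ → ℝ} (hg : Slow2 L g) {h : ℝ → ℝ} (hh : ∀ x, x ≤ h x) {τ : ℝ}
    (hτ : 0 ≤ τ) {s x : ℝ} (hx : 0 ≤ x) (hs : 0 ≤ s) (hs1 : s + τ ≤ 1) :
    xi hg h τ (Ph hg h s x) ≤ Ph hg h (s + τ) x :=
  csInf_le (XS_bdd hg hh hτ _) ⟨x, s, hx, hs, hs1, le_refl _, rfl⟩

theorem xi_iter {g : ℝ → ℝ} (hg : Slow2 L g) {h : ℝ → ℝ} (hh : ∀ x, x ≤ h x) {τ : ℝ}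
    (hτ : 0 ≤ τ) (hτ1 : τ ≤ 1) {x : ℝ} (hx : 0 ≤ x) (n : ℕ) (hn : n * τ ≤ 1) :
    (xi hg h τ)^[n] x ≤ Ph hg h (n * τ) x := by
  induction n with
  | zero =>
    simp only [Function.iterate_zero, id, Nat.cast_zero, zero_mul]
    rw [Ph_zero hg hx (hh x)]
  | succ n ih =>
    push_cast at hn ⊢
    rw [Function.iterate_succ_apply']
    have h1 := ih (by nlinarith)
    refine (xi_mono hg hh hτ hτ1 h1).trans ?_
    have h2 := xi_le hg hh hτ (s := n * τ) hx (by positivity) (by linarith)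
    rw [show ((n : ℝ) + 1) * τ = n * τ + τ by ring]
    exact h2

theorem Omin.xi_above (o : Omin L) (hexp : DF L (fun v : Fin 1 → ℝ => Real.exp (v 0)))
    {g : ℝ → ℝ} (hg : Slow2 L g) {h : ℝ → ℝ} (hA : Above h) (hh : ∀ x, x ≤ h x)
    (hm : ∀ x y, x ≤ y → h x ≤ h y) {τ : ℝ} (hτ : 0 < τ) (hτ1 : τ ≤ 1) :
    Above (xi hg h τ) := by
  intro m C
  obtain ⟨C', hC'⟩ : ∃ C', C' = max C 0 + 1 := ⟨_, rfl⟩
  have hC0 : 0 ≤ C' := by
    rw [hC']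
    have := le_max_right C 0
    linarith
  have hCC : C < C' := by
    rw [hC']
    have := le_max_left C 0
    linarith
  obtain ⟨X, hX⟩ := eventually_atTop.1 (o.path hexp hg hA hτ m C')
  rw [eventually_atTop]
  refine ⟨max (h X + 1) (Real.exp^[m] 1), fun y hy => ?_⟩
  have hy1 : h X + 1 ≤ y := (le_max_left _ _).trans hy
  have hy2 : Real.exp^[m] 1 ≤ y := (le_max_right _ _).trans hy
  refine lt_of_lt_of_le (lev_mono m hC0 hCC hy2 (le_refl y)) ?_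
  apply le_csInf (XS_ne hg hh hτ1 y)
  rintro z ⟨x, s, hx, hs, hs1, hys, rfl⟩
  have hxX : X ≤ x := by
    by_contra hlt
    push Not at hlt
    have h1 := Ph_le hg hs (by linarith) hx (hh x)
    have h2 := hm x X hlt.le
    linarith
  refine le_trans ?_ (hX x hxX s (s + τ) hs (le_refl _) hs1).le
  obtain ⟨h1, h2⟩ := exp_log_it m hy2
  obtain ⟨h3, h4⟩ := exp_log_it m (r := Real.log^[m] y) (y := Ph hg h s x) (by rw [h1]; exact hys)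
  apply (exp_it_mono m).monotone
  exact mul_le_mul_of_nonneg_left h4 hC0

/-- approximate compositional roots of every function above level 0 -/
theorem Omin.root (o : Omin L) (hexp : DF L (fun v : Fin 1 → ℝ => Real.exp (v 0)))
    {g : ℝ → ℝ} (hg : Slow2 L g) {h : ℝ → ℝ} (hd : DF L (fun v : Fin 1 → ℝ => h (v 0)))
    (hA : Above h) (n : ℕ) (hn : 1 ≤ n) :
    ∃ χ : ℝ → ℝ, DF L (fun v : Fin 1 → ℝ => χ (v 0)) ∧ Above χ ∧
      ∀ᶠ x in atTop, χ^[n] x ≤ h x := by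
  obtain ⟨a, ha⟩ := eventually_atTop.1 (hA 0 1)
  have ha' : ∀ y, a ≤ y → y < h y := by
    intro y hy
    have := ha y hy
    simpa using this
  obtain ⟨τ, hτ⟩ : ∃ τ : ℝ, τ = 1 / n := ⟨_, rfl⟩
  have hn0 : (0 : ℝ) < n := by exact_mod_cast hn
  have hτ0 : 0 < τ := by rw [hτ]; positivity
  have hn1 : (1 : ℝ) ≤ n := by exact_mod_cast hn
  have hτ1 : τ ≤ 1 := by
    rw [hτ, div_le_one hn0]
    exact hn1
  have hnτ : n * τ = 1 := by
    rw [hτ]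
    field_simp
  have hmg := hmin_ge ha'
  refine ⟨xi hg (hmin h a) τ, o.dxi hg (o.dhmin hd ha') hmg hτ0.le hτ1,
    o.xi_above hexp hg (hmin_above hA a) hmg (fun x y hxy => hmin_mono ha' hxy) hτ0 hτ1, ?_⟩
  rw [eventually_atTop]
  refine ⟨max a 0, fun x hx => ?_⟩
  have hxa : a ≤ x := (le_max_left _ _).trans hx
  have hx0 : 0 ≤ x := (le_max_right _ _).trans hx
  have h1 := xi_iter hg hmg hτ0.le hτ1 hx0 n hnτ.le
  rw [hnτ, Ph_one hg hx0 (hmg x)] at h1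
  exact h1.trans (hmin_le ha' hxa)

end

end Pool.Agent.Work.MP_973fa8.helper46
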