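import Pool.Agent.Work.MP_973fa8_helper46.Mil

/-! # MP_973fa8: a slow continuous definable function from a fast one (helper46) -/

set_option autoImplicit false

namespace Pool.Agent.Work.MP_973fa8.helper46

open Set Filter Topology

section
variable {L : FirstOrder.Language.{0, 0}} [L.Structure ℝ] {α : Type}

/-- infimum of a definable family of sets -/
theorem Omin.dinf (h : Omin L) {S : (α → ℝ) → ℝ → Prop}
    (hS : DP L (fun w : α ⊕ Unit → ℝ => S (fun a => w (Sum.inl a)) (w (Sum.inr ()))))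
    (hne : ∀ v, ∃ y, S v y) (hb : ∀ v, BddBelow {y | S v y}) :
    DF L (fun v => sInf {y | S v y}) := by
  apply DF.of_graph
  have h1 : DP L (fun w : Option α → ℝ => (∀ y, S (fun a => w (some a)) y → w none ≤ y) ∧
      ∀ y, w none < y → ∃ z, S (fun a => w (some a)) z ∧ z < y) := by
    apply DP.and
    · apply DP.all
      apply DP.imp
      · exact hS.preimage_comp (fun o : α ⊕ Unit => Sum.elim
          (fun a => (Sum.inl (some a) : Option α ⊕ Unit)) (fun u => Sum.inr u) o)
      · exact h.dle (DF.var _) (DF.var _)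
    · apply DP.all
      apply DP.imp
      · exact h.dlt (DF.var _) (DF.var _)
      · apply DP.ex
        apply DP.and
        · exact hS.preimage_comp (fun o : α ⊕ Unit => Sum.elim
            (fun a => (Sum.inl (Sum.inl (some a)) : (Option α ⊕ Unit) ⊕ Unit))
            (fun u => Sum.inr u) o)
        · exact h.dlt (DF.var _) (DF.var _)
  refine h1.congr (fun w => ?_)
  have hglb := isGLB_csInf (hne (fun a => w (some a))) (hb (fun a => w (some a)))
  constructor
  · rintro ⟨h2, h3⟩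
    apply le_antisymm
    · by_contra h4
      push Not at h4
      obtain ⟨z, hz1, hz2⟩ := h3 _ h4
      exact absurd (hglb.1 hz1) (not_le.2 hz2)
    · exact hglb.2 (fun y hy => h2 y hy)
  · intro h2
    rw [← h2]
    refine ⟨fun y hy => hglb.1 hy, fun y hy => ?_⟩
    by_contra h3
    push Not at h3
    exact absurd (hglb.2 (fun z hz => h3 z hz)) (not_le.2 hy)

theorem Omin.dinv (h : Omin L) {F : (α → ℝ) → ℝ} (hF : DF L F) : DF L (fun v => (F v)⁻¹) := by
  have h1 : DF L (fun v : Fin 1 → ℝ => (v 0)⁻¹) := by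
    apply DF.of_graph1
    have h2 : DP L (fun v : Fin 2 → ℝ => (v 0 = 0 ∧ v 1 = 0) ∨ v 0 * v 1 = 1) :=
      (((DF.var 0).eq (DF.const 0)).and ((DF.var 1).eq (DF.const 0))).or
        ((h.dmul (DF.var 0) (DF.var 1)).eq (DF.const 1))
    refine h2.congr (fun v => ?_)
    constructor
    · rintro (⟨h3, h4⟩ | h3)
      · rw [h3, h4, inv_zero]
      · exact inv_eq_of_mul_eq_one_right h3
    · intro h3
      by_cases h4 : v 0 = 0
      · left
        rw [h4, inv_zero] at h3
        exact ⟨h4, h3.symm⟩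
      · right
        rw [← h3]
        exact mul_inv_cancel₀ h4
  exact DF.sub1 (f := fun x => x⁻¹) h1 hF

/-- members of the set which defines `lip` -/
def GS (f : ℝ → ℝ) (y r : ℝ) : Prop :=
  ∃ x, ∃ z, 0 ≤ x ∧ x ≤ r ∧ x + y - z ≤ r ∧ ∀ t, x ≤ t → z ≤ |f t|

/-- a slow Lipschitz function -/
noncomputable def lip (f : ℝ → ℝ) (y : ℝ) : ℝ := sInf {r | GS f y r}

theorem GS_ne (f : ℝ → ℝ) (y : ℝ) : ∃ r, GS f y r :=
  ⟨max 0 y, 0, 0, le_refl _, le_max_left _ _, by
    rw [zero_add, sub_zero]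
    exact le_max_right _ _, fun t _ => abs_nonneg _⟩

theorem GS_bdd (f : ℝ → ℝ) (y : ℝ) : BddBelow {r | GS f y r} :=
  ⟨0, by
    rintro r ⟨x, z, hx, hxr, -⟩
    exact hx.trans hxr⟩

theorem lip_mono (f : ℝ → ℝ) {y y' : ℝ} (hy : y ≤ y') : lip f y ≤ lip f y' := by
  apply csInf_le_csInf (GS_bdd f y) (GS_ne f y')
  rintro r ⟨x, z, hx, hxr, hr, ht⟩
  exact ⟨x, z, hx, hxr, by linarith, ht⟩

theorem lip_add (f : ℝ → ℝ) (y δ : ℝ) (hδ : 0 ≤ δ) : lip f (y + δ) ≤ lip f y + δ := by
  have h1 : lip f (y + δ) - δ ≤ lip f y := by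
    apply le_csInf (GS_ne f y)
    rintro r ⟨x, z, hx, hxr, hr, ht⟩
    have h2 : lip f (y + δ) ≤ r + δ :=
      csInf_le (GS_bdd f _) ⟨x, z, hx, by linarith, by linarith, ht⟩
    linarith
  linarith

theorem lip_cont (f : ℝ → ℝ) : Continuous (lip f) := by
  apply LipschitzWith.continuous (K := 1)
  apply LipschitzWith.of_le_add
  intro x y
  rcases le_total x y with h | h
  · have := lip_mono f h
    have h2 := dist_nonneg (x := x) (y := y)
    linarith
  · have h1 := lip_add f y (x - y) (by linarith)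
    rw [add_sub_cancel] at h1
    rw [Real.dist_eq, abs_of_nonneg (by linarith)]
    exact h1

theorem lip_ge (f : ℝ → ℝ) (M y : ℝ) (hy : M + |f M| ≤ y) : M ≤ lip f y := by
  apply le_csInf (GS_ne f y)
  rintro r ⟨x, z, hx, hxr, hr, ht⟩
  by_contra hM
  push Not at hM
  have h1 := ht M (by linarith)
  linarith

theorem lip_le (f : ℝ → ℝ) (x y : ℝ) (hx : 0 ≤ x) (h : ∀ t, x ≤ t → y ≤ |f t|) :
    lip f y ≤ x :=
  csInf_le (GS_bdd f _) ⟨x, y, hx, le_refl _, by linarith, h⟩

theorem lip_tt (f : ℝ → ℝ) : Tendsto (lip f) atTop atTop := by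
  rw [tendsto_atTop]
  intro M
  filter_upwards [eventually_ge_atTop (M + |f M|)] with y hy
  exact lip_ge f M y hy

/-- strictly increasing version -/
noncomputable def gg (f : ℝ → ℝ) (y : ℝ) : ℝ := lip f y - (1 + |y|)⁻¹

theorem gg_cont (f : ℝ → ℝ) : Continuous (gg f) := by
  unfold gg
  apply (lip_cont f).sub
  apply Continuous.inv₀ (by fun_prop)
  intro y
  have := abs_nonneg y
  linarith

theorem gg_st (f : ℝ → ℝ) (x y : ℝ) (hx : 0 ≤ x) (hxy : x < y) : gg f x < gg f y := by
  unfold gg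
  have h1 := lip_mono f hxy.le
  have h2 : (1 + |y|)⁻¹ < (1 + |x|)⁻¹ := by
    rw [abs_of_nonneg hx, abs_of_nonneg (by linarith)]
    apply inv_strictAnti₀ (by linarith) (by linarith)
  linarith

theorem gg_le (f : ℝ → ℝ) (y : ℝ) : gg f y ≤ lip f y := by
  unfold gg
  have h1 : 0 ≤ (1 + |y|)⁻¹ := by positivity
  linarith

theorem gg_tt (f : ℝ → ℝ) : Tendsto (gg f) atTop atTop := by
  apply tendsto_atTop_mono (f := fun y => lip f y + (-1))
  · intro y
    unfold gg
    have h1 : (1 + |y|)⁻¹ ≤ 1 := by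
      apply inv_le_one_of_one_le₀
      have := abs_nonneg y
      linarith
    linarith
  · exact tendsto_atTop_add_const_right _ _ (lip_tt f)

theorem Omin.dgg (h : Omin L) {f : ℝ → ℝ} (hf : DF L (fun v : Fin 1 → ℝ => f (v 0))) :
    DF L (fun v : Fin 1 → ℝ => gg f (v 0)) := by
  unfold gg
  apply h.dsub
  · unfold lip
    apply h.dinf (S := fun v r => GS f (v 0) r)
    · unfold GS
      apply DP.ex
      apply DP.ex
      apply DP.and (h.dle (DF.const 0) (DF.var _))
      apply DP.and (h.dle (DF.var _) (DF.var _))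
      apply DP.and (h.dle (h.dsub (h.dadd (DF.var _) (DF.var _)) (DF.var _)) (DF.var _))
      apply DP.all
      apply DP.imp (h.dle (DF.var _) (DF.var _))
      exact h.dle (DF.var _) (h.dabs (DF.sub1 hf (DF.var _)))
    · exact fun v => GS_ne f (v 0)
    · exact fun v => GS_bdd f (v 0)
  · exact h.dinv (h.dadd (DF.const 1) (h.dabs (DF.var 0)))

/-- a continuous function slower than all iterated logarithms -/
structure Slow2 (L : FirstOrder.Language.{0, 0}) [L.Structure ℝ] (g : ℝ → ℝ) : Prop where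
  df : DF L (fun v : Fin 1 → ℝ => g (v 0))
  co : Continuous g
  tt : Tendsto g atTop atTop
  st : ∀ x y, 0 ≤ x → x < y → g x < g y
  sl : ∀ N : ℕ, ∀ᶠ x in atTop, g (Real.exp^[N] x) ≤ x

/-- a definable function which is not bounded by iterated exponentials gives `exp` and a function
slower than all iterated logarithms -/
theorem Omin.slow (h : Omin L) {f : ℝ → ℝ} (hf : DF L (fun v : Fin 1 → ℝ => f (v 0)))
    (hO : ∀ N : ℕ, ¬ f =O[atTop] (Real.exp^[N])) :
    DF L (fun v : Fin 1 → ℝ => Real.exp (v 0)) ∧ Slow2 L (gg f) := by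
  have hle : ∀ u : ℝ → ℝ, DF L (fun v : Fin 1 → ℝ => u (v 0)) →
      (∃ N : ℕ, u =O[atTop] (Real.exp^[N])) → ∀ᶠ x in atTop, |u x| ≤ |f x| := by
    rintro u hu ⟨N, hN⟩
    apply h.ev
    · exact h.dle (h.dabs (DF.sub1 hu (DF.var 0))) (h.dabs (DF.sub1 hf (DF.var 0)))
    · intro hn
      apply hO N
      refine Asymptotics.IsBigO.trans (Asymptotics.IsBigO.of_bound 1 ?_) hN
      filter_upwards [hn] with x hx
      rw [one_mul, Real.norm_eq_abs, Real.norm_eq_abs]
      exact (not_le.1 hx).le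
  have hpow : ∀ k : ℕ, ∀ᶠ x in atTop, |x ^ k| ≤ |f x| := by
    intro k
    apply hle (fun x => x ^ k) (h.dpow (DF.var 0) k)
    refine ⟨1, ?_⟩
    exact (Real.isLittleO_pow_exp_atTop (n := k)).isBigO
  have hs1 : Slow L (gg f) := by
    refine ⟨h.dgg hf, gg_tt f, gg_st f, ?_⟩
    intro k hk
    obtain ⟨X, hX⟩ := eventually_atTop.1 (hpow k)
    rw [eventually_atTop]
    refine ⟨max X 0, fun x hx => ?_⟩
    have hx0 : 0 ≤ x := (le_max_right _ _).trans hx
    refine (gg_le f _).trans (lip_le f x _ hx0 ?_)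
    intro t ht
    have h1 := hX t ((le_max_left _ _).trans (hx.trans ht))
    rw [abs_of_nonneg (pow_nonneg (hx0.trans ht) k)] at h1
    exact (pow_le_pow_left₀ hx0 ht k).trans h1
  have hexp := h.dexp hs1
  refine ⟨hexp, h.dgg hf, gg_cont f, gg_tt f, gg_st f, ?_⟩
  intro N
  have hmono : Monotone (Real.exp^[N]) := Real.exp_monotone.iterate N
  obtain ⟨X, hX⟩ := eventually_atTop.1 (hle (Real.exp^[N]) (Omin.iter hexp N (DF.var 0))
    ⟨N, Asymptotics.isBigO_refl _ _⟩)
  rw [eventually_atTop]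
  refine ⟨max X 0, fun x hx => ?_⟩
  have hx0 : 0 ≤ x := (le_max_right _ _).trans hx
  refine (gg_le f _).trans (lip_le f x _ hx0 ?_)
  intro t ht
  have h1 := hX t ((le_max_left _ _).trans (hx.trans ht))
  exact (hmono ht).trans ((le_abs_self _).trans h1)

end

end Pool.Agent.Work.MP_973fa8.helper46
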